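import Pool.Agent.Lib.MP_1a91b9_ntK.D.Defs

/-!
# MP_1a91b9_nt (cubic twists), part D: the additive character of `ZMod 3`
-/

set_option autoImplicit false

namespace Pool.Agent.Lib.MP_1a91b9_ntK

open Finset

noncomputable section

theorem e3_ne_zero (x : ZMod 3) : e3 x ≠ 0 := by
  intro h
  have h1 := e3_add x (-x)
  rw [add_neg_cancel, e3_zero, h, zero_mul] at h1
  exact one_ne_zero h1

theorem e3_neg (x : ZMod 3) : e3 (-x) = (starRingEnd ℂ) (e3 x) := AddChar.map_neg_eq_conj _ _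

theorem e3_one_ne : e3 1 ≠ 1 := by
  intro h
  have h1 := ZMod.isPrimitive_stdAddChar 3
  have h2 : ZMod.stdAddChar (N := 3) (1 : ZMod 3) = 1 := h
  have h3 := ZMod.injective_stdAddChar (N := 3)
  have h4 : (1 : ZMod 3) = 0 := h3 (h2.trans (AddChar.map_zero_eq_one _).symm)
  exact one_ne_zero h4

theorem e3_eq_one {x : ZMod 3} (h : e3 x = 1) : x = 0 := by
  have h3 := ZMod.injective_stdAddChar (N := 3)
  exact h3 ((show ZMod.stdAddChar (N := 3) x = 1 from h).trans (AddChar.map_zero_eq_one _).symm)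

/-- A sum of cube roots of unity with a rotating translation is zero. -/
theorem sum_e3_eq_zero {α : Type} [AddCommGroup α] [Fintype α] (F : α → ZMod 3) (t : α)
    (c : ZMod 3) (hc : c ≠ 0) (h : ∀ x, F (x + t) = F x + c) : ∑ x, e3 (F x) = 0 := by
  have h1 : ∑ x, e3 (F x) = ∑ x, e3 (F (x + t)) :=
    (Equiv.sum_comp (Equiv.addRight t) fun x => e3 (F x)).symm
  have h2 : ∑ x, e3 (F (x + t)) = e3 c * ∑ x, e3 (F x) := by
    rw [mul_sum]
    refine sum_congr rfl fun x _ => ?_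
    rw [h, e3_add, mul_comm]
  have h3 : (1 - e3 c) * ∑ x, e3 (F x) = 0 := by
    rw [sub_mul, one_mul, ← h2, ← h1, sub_self]
  rcases mul_eq_zero.1 h3 with h4 | h4
  · exact absurd (e3_eq_one (sub_eq_zero.1 h4).symm) hc
  · exact h4

end

end Pool.Agent.Lib.MP_1a91b9_ntK
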