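import Pool.Agent.Lib.MP_1a91b9_ntK.D.Mom3

/-!
# MP_1a91b9_nt (cubic twists), part D: the limit of the partial sums is an infinite product
-/

set_option autoImplicit false

namespace Pool.Agent.Lib.MP_1a91b9_ntK.Da

open Finset Filter Topology

noncomputable section

/-- The limit density `∏_{i ≥ 0} (1 - 3^{-(2i+1)}) = 0.6390...`. -/
def cinf3 : ℝ := ∏' i : ℕ, (1 - (1 / 3 : ℝ) ^ (2 * i + 1))

/-- The coefficients `1 / ∏_{i=1}^{j} (1 - 3^{-i})`. -/
def ac3 (j : ℕ) : ℝ := (∏ i ∈ range j, (1 - (1 / 3 : ℝ) ^ (i + 1)))⁻¹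

theorem one_sub_pos3 (i : ℕ) : 0 < 1 - (1 / 3 : ℝ) ^ (i + 1) := by
  have : (1 / 3 : ℝ) ^ (i + 1) < 1 := pow_lt_one₀ (by norm_num) (by norm_num) (by omega)
  linarith

theorem ac3_pos (j : ℕ) : 0 < ac3 j := inv_pos.2 (prod_pos fun i _ => one_sub_pos3 i)

theorem ac3_succ (j : ℕ) : ac3 (j + 1) * (1 - (1 / 3 : ℝ) ^ (j + 1)) = ac3 j := by
  have h := one_sub_pos3 j
  rw [ac3, prod_range_succ, mul_inv, ← ac3, mul_assoc, inv_mul_cancel₀ h.ne', mul_one]

theorem prod_lower3 (j : ℕ) : (1 / 2 : ℝ) + (1 / 2) * (1 / 3) ^ j ≤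
    ∏ i ∈ range j, (1 - (1 / 3 : ℝ) ^ (i + 1)) := by
  induction j with
  | zero => norm_num
  | succ j ih =>
    rw [prod_range_succ]
    have h1 := one_sub_pos3 j
    have hx : 0 < (1 / 3 : ℝ) ^ j := by positivity
    have hx1 : (1 / 3 : ℝ) ^ j ≤ 1 := pow_le_one₀ (by norm_num) (by norm_num)
    refine le_trans ?_ (mul_le_mul_of_nonneg_right ih h1.le)
    rw [pow_succ]
    nlinarith

theorem ac3_le (j : ℕ) : ac3 j ≤ 2 := by
  have h1 := prod_lower3 j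
  have h2 : 0 < (1 / 3 : ℝ) ^ j := by positivity
  rw [ac3, inv_le_comm₀ (prod_pos fun i _ => one_sub_pos3 i) (by norm_num)]
  linarith

/-- The series `∑ z^j / ∏_{i=1}^{j} (1 - 3^{-i})`. -/
def fs3 (z : ℝ) : ℝ := ∑' j, ac3 j * z ^ j

theorem summable_fs3 {z : ℝ} (hz : |z| < 1) : Summable fun j => ac3 j * z ^ j := by
  refine Summable.of_norm_bounded (g := fun j => 2 * |z| ^ j)
    ((summable_geometric_of_lt_one (abs_nonneg z) hz).mul_left _) fun j => ?_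
  rw [norm_mul, norm_pow, Real.norm_eq_abs, Real.norm_eq_abs, abs_of_pos (ac3_pos j)]
  exact mul_le_mul_of_nonneg_right (ac3_le j) (by positivity)

theorem fs3_eq {z : ℝ} (hz : |z| < 1) : (1 - z) * fs3 z = fs3 (z * (1 / 3)) := by
  have hz4 : |z * (1 / 3)| < 1 := by
    rw [abs_mul, abs_of_pos (by norm_num : (0 : ℝ) < 1 / 3)]
    linarith [abs_nonneg z]
  have h1 := summable_fs3 hz
  have h2 := summable_fs3 hz4
  have h3 : fs3 z - fs3 (z * (1 / 3)) = z * fs3 z := by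
    rw [fs3, fs3, ← h1.tsum_sub h2, ← tsum_mul_left,
      (h1.sub h2).tsum_eq_zero_add]
    simp only [pow_zero, mul_one, sub_self, zero_add]
    refine tsum_congr fun j => ?_
    rw [mul_pow]
    have := ac3_succ j
    rw [← this]
    ring
  linarith

theorem fs3_iter (n : ℕ) : (∏ i ∈ range n, (1 + (1 / 3 : ℝ) ^ (i + 1))) * fs3 (-1 / 3) =
    fs3 (-1 / 3 * (1 / 3) ^ n) := by
  induction n with
  | zero => simp
  | succ n ih =>
    have hz : |(-1 / 3 : ℝ) * (1 / 3) ^ n| < 1 := by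
      rw [abs_mul, abs_of_pos (by positivity : (0 : ℝ) < (1 / 3) ^ n)]
      have : (1 / 3 : ℝ) ^ n ≤ 1 := pow_le_one₀ (by norm_num) (by norm_num)
      have h : |(-1 / 3 : ℝ)| = 1 / 3 := by rw [abs_of_neg (by norm_num)]; norm_num
      rw [h]
      linarith
    have h1 := fs3_eq hz
    have h2 : (1 / 3 : ℝ) ^ (n + 1) = 1 / 3 * (1 / 3) ^ n := pow_succ' _ _
    rw [prod_range_succ, h2]
    calc _ = (1 - -1 / 3 * (1 / 3) ^ n) *
          ((∏ i ∈ range n, (1 + (1 / 3 : ℝ) ^ (i + 1))) * fs3 (-1 / 3)) := by ring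
      _ = fs3 (-1 / 3 * (1 / 3) ^ n * (1 / 3)) := by rw [ih, h1]
      _ = _ := by ring_nf

theorem fs3_near {z : ℝ} (hz : |z| ≤ 1 / 3) : |fs3 z - 1| ≤ 3 * |z| := by
  have hz1 : |z| < 1 := by linarith
  have h1 := summable_fs3 hz1
  have h2 : fs3 z - 1 = ∑' j, ac3 (j + 1) * z ^ (j + 1) := by
    rw [fs3, h1.tsum_eq_zero_add]
    simp [ac3]
  rw [h2, ← Real.norm_eq_abs]
  have h3 : HasSum (fun j => 2 * |z| * |z| ^ j) (2 * |z| * (1 - |z|)⁻¹) :=
    (hasSum_geometric_of_lt_one (abs_nonneg z) hz1).mul_left _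
  refine (tsum_of_norm_bounded h3 fun j => ?_).trans ?_
  · rw [norm_mul, norm_pow, Real.norm_eq_abs, Real.norm_eq_abs, abs_of_pos (ac3_pos _), pow_succ]
    calc ac3 (j + 1) * (|z| ^ j * |z|) ≤ 2 * (|z| ^ j * |z|) :=
          mul_le_mul_of_nonneg_right (ac3_le _) (by positivity)
      _ = 2 * |z| * |z| ^ j := by ring
  · have h4 : (1 - |z|)⁻¹ ≤ 3 / 2 := by
      rw [inv_le_comm₀ (by linarith) (by norm_num)]
      linarith
    nlinarith [abs_nonneg z]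

theorem tendsto_prod3 : Tendsto (fun n => (∏ i ∈ range n, (1 + (1 / 3 : ℝ) ^ (i + 1))) *
    fs3 (-1 / 3)) atTop (𝓝 1) := by
  simp only [fs3_iter]
  rw [tendsto_iff_dist_tendsto_zero]
  have h0 : Tendsto (fun n : ℕ => (1 / 3 : ℝ) ^ n) atTop (𝓝 0) :=
    tendsto_pow_atTop_nhds_zero_of_lt_one (r := (1 / 3 : ℝ)) (by norm_num) (by norm_num)
  refine squeeze_zero (fun _ => dist_nonneg) (fun n => ?_) h0
  have hp : (0 : ℝ) < (1 / 3) ^ n := by positivity
  have habs : |(-1 / 3 : ℝ) * (1 / 3) ^ n| = 1 / 3 * (1 / 3) ^ n := by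
    rw [abs_mul, abs_of_pos hp, abs_of_neg (by norm_num : (-1 / 3 : ℝ) < 0)]
    ring
  rw [Real.dist_eq]
  refine (fs3_near ?_).trans ?_
  · rw [habs]
    have : (1 / 3 : ℝ) ^ n ≤ 1 := pow_le_one₀ (by norm_num) (by norm_num)
    linarith
  · rw [habs]
    linarith

/-- Euler's identity for the partial products. -/
theorem euler_part (n : ℕ) : (∏ i ∈ range n, (1 - (1 / 3 : ℝ) ^ (2 * i + 1))) *
    (∏ i ∈ range n, (1 + (1 / 3 : ℝ) ^ (i + 1))) * ∏ i ∈ range n, (1 - (1 / 3 : ℝ) ^ (i + 1)) =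
      ∏ i ∈ range (2 * n), (1 - (1 / 3 : ℝ) ^ (i + 1)) := by
  induction n with
  | zero => simp
  | succ n ih =>
    rw [show 2 * (n + 1) = 2 * n + 1 + 1 by ring, prod_range_succ _ (2 * n + 1),
      prod_range_succ _ (2 * n), ← ih, prod_range_succ, prod_range_succ, prod_range_succ]
    have h : (1 / 3 : ℝ) ^ (2 * n + 1 + 1) = (1 / 3) ^ (n + 1) * (1 / 3) ^ (n + 1) := by
      rw [← pow_add]
      ring_nf
    rw [h]
    ring

theorem cinf3_eq : cinf3 = fs3 (-1 / 3) := by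
  have hs : Summable fun i : ℕ => (1 / 3 : ℝ) ^ (i + 1) := by
    have h1 : Summable fun i : ℕ => (1 / 3 : ℝ) * (1 / 3) ^ i :=
      (summable_geometric_of_lt_one (by norm_num) (by norm_num)).mul_left _
    exact h1.congr fun i => (pow_succ' _ _).symm
  have hsB : Multipliable fun i : ℕ => (1 - (1 / 3 : ℝ) ^ (i + 1)) := by
    have := Real.multipliable_one_add_of_summable (f := fun i : ℕ => -(1 / 3 : ℝ) ^ (i + 1)) hs.neg
    exact this.congr fun i => (sub_eq_add_neg _ _).symm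
  have hsA : Multipliable fun i : ℕ => (1 + (1 / 3 : ℝ) ^ (i + 1)) :=
    Real.multipliable_one_add_of_summable hs
  have hs2 : Summable fun i : ℕ => (1 / 3 : ℝ) ^ (2 * i + 1) := by
    have h1 : Summable fun i : ℕ => (1 / 3 : ℝ) * (1 / 9) ^ i :=
      (summable_geometric_of_lt_one (by norm_num) (by norm_num)).mul_left _
    refine h1.congr fun i => ?_
    rw [pow_succ, pow_mul]
    norm_num
    ring
  have hsC : Multipliable fun i : ℕ => (1 - (1 / 3 : ℝ) ^ (2 * i + 1)) := by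
    have := Real.multipliable_one_add_of_summable
      (f := fun i : ℕ => -(1 / 3 : ℝ) ^ (2 * i + 1)) hs2.neg
    exact this.congr fun i => (sub_eq_add_neg _ _).symm
  have hA := hsA.hasProd.tendsto_prod_nat
  have hB := hsB.hasProd.tendsto_prod_nat
  have hC := hsC.hasProd.tendsto_prod_nat
  set A : ℝ := ∏' i : ℕ, (1 + (1 / 3 : ℝ) ^ (i + 1)) with hAd
  set B : ℝ := ∏' i : ℕ, (1 - (1 / 3 : ℝ) ^ (i + 1)) with hBd
  have hB2 : Tendsto (fun n => ∏ i ∈ range (2 * n), (1 - (1 / 3 : ℝ) ^ (i + 1))) atTop (𝓝 B) :=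
    hB.comp (tendsto_id.const_mul_atTop' (by norm_num : 0 < 2))
  have hB0 : 1 / 2 ≤ B := by
    refine ge_of_tendsto' hB fun n => ?_
    have := prod_lower3 n
    have h2 : 0 < (1 / 3 : ℝ) ^ n := by positivity
    linarith
  have h1 : cinf3 * A * B = B := by
    have h2 := (hC.mul hA).mul hB
    simp only [euler_part] at h2
    exact (tendsto_nhds_unique h2 hB2)
  have h2 : cinf3 * A = 1 := by
    have h3 : (cinf3 * A - 1) * B = 0 := by linear_combination h1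
    rcases mul_eq_zero.1 h3 with h4 | h4
    · linarith
    · exfalso
      rw [h4] at hB0
      norm_num at hB0
  have h3 : A * fs3 (-1 / 3) = 1 := tendsto_nhds_unique (hA.mul_const _) tendsto_prod3
  calc cinf3 = cinf3 * (A * fs3 (-1 / 3)) := by rw [h3, mul_one]
    _ = cinf3 * A * fs3 (-1 / 3) := by ring
    _ = fs3 (-1 / 3) := by rw [h2, one_mul]

theorem sK3_term (j : ℕ) : (-1 : ℝ) ^ j * Tj3 j / ∏ i ∈ range j, (3 ^ (i + 1) - 1) =
    ac3 j * (-1 / 3) ^ j := by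
  induction j with
  | zero => simp [ac3, Tj3]
  | succ j ih =>
    have h4 : (0 : ℝ) < 3 ^ (j + 1) := by positivity
    have h1 : (3 : ℝ) ^ (j + 1) - 1 = 3 ^ (j + 1) * (1 - (1 / 3) ^ (j + 1)) := by
      rw [mul_sub, mul_one, ← mul_pow]
      norm_num
    have h2 := one_sub_pos3 j
    have h3 : ac3 (j + 1) = ac3 j / (1 - (1 / 3 : ℝ) ^ (j + 1)) := by
      rw [eq_div_iff h2.ne', ac3_succ]
    have h5 : Tj3 (j + 1) = Tj3 j * (3 ^ (j + 1) / 3) := by
      rw [Tj3, prod_range_succ, ← Tj3, pow_succ]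
      ring
    rw [prod_range_succ, h1, h3, h5, pow_succ (-1 : ℝ), pow_succ (-1 / 3 : ℝ)]
    have h6 : (-1 : ℝ) ^ j * -1 * (Tj3 j * (3 ^ (j + 1) / 3)) /
        ((∏ i ∈ range j, ((3 : ℝ) ^ (i + 1) - 1)) * (3 ^ (j + 1) * (1 - (1 / 3) ^ (j + 1)))) =
        ((-1 : ℝ) ^ j * Tj3 j / ∏ i ∈ range j, ((3 : ℝ) ^ (i + 1) - 1)) *
          ((-1 / 3) / (1 - (1 / 3) ^ (j + 1))) := by
      field_simp
    rw [h6, ih]
    ring

/-- The partial sums converge to the infinite product. -/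
theorem tendsto_sK3 : Tendsto sK3 atTop (𝓝 cinf3) := by
  have hz : |(-1 / 3 : ℝ)| < 1 := by rw [abs_of_neg (by norm_num)]; norm_num
  have h1 := (summable_fs3 hz).hasSum.tendsto_sum_nat
  have h2 : sK3 = fun K => ∑ j ∈ range (K + 1), ac3 j * (-1 / 3 : ℝ) ^ j := by
    funext K
    exact sum_congr rfl fun j _ => sK3_term j
  rw [h2, cinf3_eq]
  exact (tendsto_add_atTop_iff_nat 1).2 h1

theorem exists_odd3 {κ : ℝ} (hκ : κ < cinf3) : ∃ K, Odd K ∧ κ < sK3 K := by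
  have h1 := tendsto_sK3.eventually (lt_mem_nhds hκ)
  obtain ⟨N, hN⟩ := Filter.eventually_atTop.1 h1
  exact ⟨2 * N + 1, ⟨N, rfl⟩, hN _ (by omega)⟩

theorem exists_even3 {κ : ℝ} (hκ : cinf3 < κ) : ∃ K, Even K ∧ sK3 K < κ := by
  have h1 := tendsto_sK3.eventually (gt_mem_nhds hκ)
  obtain ⟨N, hN⟩ := Filter.eventually_atTop.1 h1
  exact ⟨2 * N, ⟨N, by ring⟩, hN _ (by omega)⟩

variable {β : Type}

/-- The lower density of the `b` with trivial kernel is at least the infinite product. -/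
theorem dens3_lower {A : ℕ → Finset β} {kc : β → ℕ} (hp : ∀ b, ∃ r, kc b = 3 ^ r)
    (hm : ∀ k, MF3 A kc (fun x => x ^ k) (Nk3 k)) {κ : ℝ} (hκ : κ < cinf3)
    (ε : ℝ) (hε : 0 < ε) : ∃ X₀ : ℕ, ∀ X : ℕ, X₀ ≤ X →
      κ * (A X).card - ε * X ≤ ((A X).filter fun b => kc b = 1).card := by
  obtain ⟨K, hK, h1⟩ := exists_odd3 hκ
  obtain ⟨X0, h0⟩ := dens3_odd hp hm K hK ε hε
  refine ⟨X0, fun X hX => ?_⟩
  have h2 := h0 X hX
  have h3 := mul_le_mul_of_nonneg_right h1.le (Nat.cast_nonneg (α := ℝ) (A X).card)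
  linarith

/-- The upper density of the `b` with trivial kernel is at most the infinite product. -/
theorem dens3_upper {A : ℕ → Finset β} {kc : β → ℕ} (hp : ∀ b, ∃ r, kc b = 3 ^ r)
    (hm : ∀ k, MF3 A kc (fun x => x ^ k) (Nk3 k)) {κ : ℝ} (hκ : cinf3 < κ)
    (ε : ℝ) (hε : 0 < ε) : ∃ X₀ : ℕ, ∀ X : ℕ, X₀ ≤ X →
      (((A X).filter fun b => kc b = 1).card : ℝ) ≤ κ * (A X).card + ε * X := by
  obtain ⟨K, hK, h1⟩ := exists_even3 hκ
  obtain ⟨X0, h0⟩ := dens3_even hp hm K hK ε hε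
  refine ⟨X0, fun X hX => ?_⟩
  have h2 := h0 X hX
  have h3 := mul_le_mul_of_nonneg_right h1.le (Nat.cast_nonneg (α := ℝ) (A X).card)
  linarith

end

end Pool.Agent.Lib.MP_1a91b9_ntK.Da
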