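import Pool.Agent.Lib.MP_1a91b9_ntK.D.Mo3
import Pool.Agent.Lib.MP_1a91b9_ntK.D.Lim3

/-!
# MP_1a91b9_nt (cubic twists), part D: from twisted moments to moments in classes
-/

set_option autoImplicit false

namespace Pool.Agent.Lib.MP_1a91b9_ntK.Da

open Finset Pool.Agent.Lib.MP_1a91b9_ntH

noncomputable section

variable {ι : Type} [DecidableEq ι]

theorem kc3_pow (D : Dat3 ι) (e : ι → ZMod 3) (τ : ZMod 3) (R : Finset ι) :
    ∃ r : ℕ, D.kc e τ R = 3 ^ r := by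
  have h1 : D.kc e τ R = Nat.card (LinearMap.ker (D.N e τ R).mulVecLin) := by
    rw [Dat3.kc, ← Nat.card_eq_fintype_card]
    rfl
  have h2 := Module.natCard_eq_pow_finrank (K := ZMod 3)
    (V := LinearMap.ker (D.N e τ R).mulVecLin)
  rw [← h1, Nat.card_eq_fintype_card, ZMod.card] at h2
  exact ⟨_, h2⟩

theorem kc3_eq_one (D : Dat3 ι) (e : ι → ZMod 3) (τ : ZMod 3) (R : Finset ι) :
    D.kc e τ R = 1 ↔ (D.N e τ R).det ≠ 0 := by
  rw [Dat3.kc, Fintype.card_eq_one_iff, ne_eq, ← Matrix.exists_mulVec_eq_zero_iff]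
  constructor
  · rintro ⟨x, hx⟩ ⟨v, hv, hv0⟩
    have h1 := hx ⟨v, hv0⟩
    have h2 := hx ⟨0, Matrix.mulVec_zero _⟩
    rw [← h2] at h1
    exact hv (congrArg Subtype.val h1)
  · intro h
    refine ⟨⟨0, Matrix.mulVec_zero _⟩, fun y => ?_⟩
    by_contra hne
    exact h ⟨y.1, fun h0 => hne (Subtype.ext h0), y.2⟩

/-- `N e = 0` in the Laplacian case. -/
theorem N_zero_mulVec (D : Dat3 ι) (e : ι → ZMod 3) (he : ∀ i, e i * e i = 1) (R : Finset ι) :
    (D.N e 0 R).mulVec (fun j => e j) = 0 := by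
  funext j
  rw [D.N_mulVec e he]
  show _ = (0 : ZMod 3)
  rw [zero_mul, mul_zero, zero_mul, zero_add]
  refine sum_eq_zero fun l _ => ?_
  linear_combination D.s j l * e l * he j

theorem two_le_kc3 (D : Dat3 ι) (e : ι → ZMod 3) (he : ∀ i, e i * e i = 1) {R : Finset ι}
    (hR : R ≠ ∅) : 2 ≤ D.kc e 0 R := by
  rw [Dat3.kc, ← Nat.succ_le_iff.symm.trans (Iff.rfl : Nat.succ 1 ≤ _ ↔ 2 ≤ _),
    Fintype.one_lt_card_iff]
  obtain ⟨i, hi⟩ := nonempty_iff_ne_empty.2 hR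
  refine ⟨⟨0, Matrix.mulVec_zero _⟩, ⟨fun j => e j, N_zero_mulVec D e he R⟩, fun h => ?_⟩
  have h1 := congrFun (congrArg Subtype.val h) ⟨i, hi⟩
  have h2 := he i
  have h3 : e i = 0 := h1.symm
  rw [h3, mul_zero] at h2
  exact zero_ne_one h2

/-- The kernel size divided by `3` in the Laplacian case. -/
def kcz (D : Dat3 ι) (T S : Finset ι) : ℕ :=
  if S ∪ T = ∅ then 1 else D.kc (eT T) 0 (S ∪ T) / 3

theorem kcz_mul (D : Dat3 ι) {T S : Finset ι} (h : S ∪ T ≠ ∅) :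
    D.kc (eT T) 0 (S ∪ T) = 3 * kcz D T S := by
  rw [kcz, if_neg h]
  obtain ⟨r, hr⟩ := kc3_pow D (eT T) 0 (S ∪ T)
  have h2 := two_le_kc3 D (eT T) (eT_mul T) h
  rw [hr] at h2 ⊢
  rcases r with _ | r
  · norm_num at h2
  · rw [pow_succ']
    omega

theorem kcz_pow (D : Dat3 ι) (T S : Finset ι) : ∃ r : ℕ, kcz D T S = 3 ^ r := by
  by_cases h : S ∪ T = ∅
  · exact ⟨0, by rw [kcz, if_pos h, pow_zero]⟩
  · obtain ⟨r, hr⟩ := kc3_pow D (eT T) 0 (S ∪ T)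
    have h2 := two_le_kc3 D (eT T) (eT_mul T) h
    rw [kcz, if_neg h, hr]
    rw [hr] at h2
    rcases r with _ | r
    · norm_num at h2
    · exact ⟨r, by rw [pow_succ']; omega⟩

variable [PS ι]

/-- The squarefree integers prime to `T` in the class `α`. -/
def SA3 (D : Dat3 ι) (T : Finset ι) (α : ZMod 3) (X : ℕ) : Finset (Finset ι) :=
  (SxT T X).filter fun S => ∑ q ∈ S, D.a q = α

theorem sum_class3 (D : Dat3 ι) (T : Finset ι) (α : ZMod 3) (X : ℕ) (g : Finset ι → ℂ) :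
    ∑ S ∈ SA3 D T α X, g S = (∑ c : ZMod 3, e3 (-(c * α)) *
      ∑ S ∈ SxT T X, g S * e3 (c * ∑ q ∈ S, D.a q)) / 3 := by
  have h1 : ∑ c : ZMod 3, e3 (-(c * α)) * ∑ S ∈ SxT T X, g S * e3 (c * ∑ q ∈ S, D.a q) =
      ∑ S ∈ SxT T X, g S * ∑ c : ZMod 3, e3 (c * (∑ q ∈ S, D.a q - α)) := by
    rw [sum_congr rfl fun c _ => mul_sum (SxT T X) _ _, sum_comm]
    refine sum_congr rfl fun S _ => ?_
    refine (sum_congr rfl fun c _ => ?_).trans (mul_sum _ _ _).symm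
    rw [mul_sub, sub_eq_add_neg, e3_add]
    ring
  rw [h1, SA3, sum_filter, sum_div]
  refine sum_congr rfl fun S _ => ?_
  rw [sum_t]
  by_cases h : ∑ q ∈ S, D.a q = α
  · rw [if_pos h, if_pos (sub_eq_zero.2 h)]
    ring
  · rw [if_neg h, if_neg fun h' => h (sub_eq_zero.1 h')]
    ring

theorem norm_sum_kc3 {D : Dat3 ι} {τ : ZMod 3} {T : Finset ι} (h : MoOK3 D τ T) (α : ZMod 3)
    (k : ℕ) (ε : ℝ) (hε : 0 < ε) : ∃ X₀ : ℕ, ∀ X : ℕ, X₀ ≤ X →
    |∑ S ∈ SA3 D T α X, (D.kc (eT T) τ (S ∪ T) : ℝ) ^ k - Mk3 k τ * (SA3 D T α X).card| ≤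
      ε * X := by
  set N : ℝ := (Mk3 k τ : ℝ) with hN
  have hN0 : 0 ≤ N := Nat.cast_nonneg _
  have hpos : 0 < ε / (1 + N) := by positivity
  choose X1 h1 using fun c => h k c (ε / (1 + N)) hpos
  choose X2 h2 using fun c => h 0 c (ε / (1 + N)) hpos
  refine ⟨∑ c, X1 c + ∑ c, X2 c, fun X hX => ?_⟩
  have hX1 : ∀ c, X1 c ≤ X := fun c =>
    (single_le_sum (fun _ _ => Nat.zero_le _) (mem_univ c)).trans ((Nat.le_add_right _ _).trans hX)
  have hX2 : ∀ c, X2 c ≤ X := fun c =>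
    (single_le_sum (fun _ _ => Nat.zero_le _) (mem_univ c)).trans ((Nat.le_add_left _ _).trans hX)
  have e1 : ∑ S ∈ SA3 D T α X, (D.kc (eT T) τ (S ∪ T) : ℂ) ^ k =
      (∑ c : ZMod 3, e3 (-(c * α)) * Mo3 D τ T k c X) / 3 := sum_class3 D T α X _
  have e0 : ((SA3 D T α X).card : ℂ) =
      (∑ c : ZMod 3, e3 (-(c * α)) * Mo3 D τ T 0 c X) / 3 := by
    have := sum_class3 D T α X fun _ => 1
    simp only [sum_const, nsmul_eq_mul, mul_one] at this
    rw [this]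
    simp only [Mo3, pow_zero]
  have e2 : ((∑ S ∈ SA3 D T α X, (D.kc (eT T) τ (S ∪ T) : ℝ) ^ k -
      N * (SA3 D T α X).card : ℝ) : ℂ) =
      (∑ c : ZMod 3, e3 (-(c * α)) * (Mo3 D τ T k c X - N * Mo3 D τ T 0 c X)) / 3 := by
    push_cast
    rw [e1, e0]
    simp only [mul_sub, sum_sub_distrib]
    have : ∑ c : ZMod 3, e3 (-(c * α)) * ((N : ℂ) * Mo3 D τ T 0 c X) =
        N * ∑ c : ZMod 3, e3 (-(c * α)) * Mo3 D τ T 0 c X := by
      rw [mul_sum]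
      exact sum_congr rfl fun c _ => by ring
    rw [this]
    ring
  have e4 : ∀ c, ‖Mo3 D τ T k c X - N * Mo3 D τ T 0 c X‖ ≤ ε * X := by
    intro c
    have h3 := h1 c X (hX1 c)
    have h4 := h2 c X (hX2 c)
    have hM : Mk3 0 τ = 1 := by
      rw [Mk3, Nk3, prod_range_zero, pow_zero, mul_one, ite_self]
    have h5 : Mo3 D τ T k c X - N * Mo3 D τ T 0 c X =
        (Mo3 D τ T k c X - (if c = 0 then (Mk3 k τ : ℂ) else 0) * ((SxT T X).card : ℂ)) -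
        N * (Mo3 D τ T 0 c X - (if c = 0 then (Mk3 0 τ : ℂ) else 0) * ((SxT T X).card : ℂ)) := by
      rw [hM]
      split_ifs
      · rw [hN]
        push_cast
        ring
      · ring
    rw [h5]
    calc _ ≤ ‖Mo3 D τ T k c X - (if c = 0 then (Mk3 k τ : ℂ) else 0) * ((SxT T X).card : ℂ)‖ +
          ‖(N : ℂ) * (Mo3 D τ T 0 c X - (if c = 0 then (Mk3 0 τ : ℂ) else 0) *
            ((SxT T X).card : ℂ))‖ := norm_sub_le _ _
      _ ≤ ε / (1 + N) * X + N * (ε / (1 + N) * X) := by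
          rw [norm_mul, Complex.norm_real, Real.norm_eq_abs, abs_of_nonneg hN0]
          exact add_le_add h3 (mul_le_mul_of_nonneg_left h4 hN0)
      _ = ε * X := by field_simp
  rw [← Real.norm_eq_abs, ← Complex.norm_real, e2, norm_div,
    show ‖(3 : ℂ)‖ = 3 by norm_num, div_le_iff₀ (by norm_num)]
  calc ‖∑ c : ZMod 3, e3 (-(c * α)) * (Mo3 D τ T k c X - N * Mo3 D τ T 0 c X)‖
      ≤ ∑ c : ZMod 3, ‖e3 (-(c * α)) * (Mo3 D τ T k c X - N * Mo3 D τ T 0 c X)‖ :=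
        norm_sum_le _ _
    _ ≤ ∑ _c : ZMod 3, ε * X := by
        refine sum_le_sum fun c _ => ?_
        rw [norm_mul, norm_e3, one_mul]
        exact e4 c
    _ = ε * X * 3 := by
        rw [sum_const, card_univ, ZMod.card, nsmul_eq_mul]
        push_cast
        ring

/-- The moments in the nondegenerate case. -/
theorem MF3_ne {D : Dat3 ι} {τ : ZMod 3} (hτ : τ ≠ 0) {T : Finset ι} (h : MoOK3 D τ T)
    (α : ZMod 3) (k : ℕ) :
    MF3 (SA3 D T α) (fun S => D.kc (eT T) τ (S ∪ T)) (fun x => x ^ k) (Nk3 k) := by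
  intro ε hε
  obtain ⟨X0, h0⟩ := norm_sum_kc3 h α k ε hε
  refine ⟨X0, fun X hX => ?_⟩
  have := h0 X hX
  rw [Mk3, if_neg hτ] at this
  exact this

/-- The moments in the Laplacian case. -/
theorem MF3_zero {D : Dat3 ι} {T : Finset ι} (h : MoOK3 D 0 T) (α : ZMod 3) (k : ℕ) :
    MF3 (SA3 D T α) (kcz D T) (fun x => x ^ k) (Nk3 k) := by
  intro ε hε
  obtain ⟨X0, h0⟩ := norm_sum_kc3 h α k (ε / 2) (by positivity)
  obtain ⟨X1, hX1⟩ := exists_nat_gt (2 * 3 ^ k / ε)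
  refine ⟨max X0 X1, fun X hX => ?_⟩
  have h2 := h0 X (le_trans (le_max_left _ _) hX)
  have h3 : (3 : ℝ) ^ k ≤ ε / 2 * X := by
    have h4 : (X1 : ℝ) ≤ X := by exact_mod_cast le_trans (le_max_right _ _) hX
    have h5 := hX1.le.trans h4
    rw [div_le_iff₀ hε] at h5
    linarith
  rw [Mk3, if_pos rfl] at h2
  have hk : (1 : ℝ) ≤ 3 ^ k := one_le_pow₀ (by norm_num)
  have h6 : |3 ^ k * ∑ S ∈ SA3 D T α X, (kcz D T S : ℝ) ^ k -
      ∑ S ∈ SA3 D T α X, (D.kc (eT T) 0 (S ∪ T) : ℝ) ^ k| ≤ 3 ^ k := by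
    rw [mul_sum, ← sum_sub_distrib]
    have h7 : ∀ S ∈ SA3 D T α X, S ≠ ∅ →
        3 ^ k * (kcz D T S : ℝ) ^ k - (D.kc (eT T) 0 (S ∪ T) : ℝ) ^ k = 0 := by
      intro S _ hS
      have hne : S ∪ T ≠ ∅ := fun h => hS (union_eq_empty.1 h).1
      rw [kcz_mul D hne]
      push_cast
      rw [mul_pow, sub_self]
    have h8 : ∑ S ∈ SA3 D T α X, (3 ^ k * (kcz D T S : ℝ) ^ k -
        (D.kc (eT T) 0 (S ∪ T) : ℝ) ^ k) = if (∅ : Finset ι) ∈ SA3 D T α X then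
          3 ^ k * (kcz D T ∅ : ℝ) ^ k - (D.kc (eT T) 0 (∅ ∪ T) : ℝ) ^ k else 0 := by
      split_ifs with hm
      · exact sum_eq_single_of_mem ∅ hm fun S hS hne => h7 S hS hne
      · exact sum_eq_zero fun S hS => h7 S hS fun h => hm (h ▸ hS)
    rw [h8]
    split_ifs with hm
    · by_cases hT : T = ∅
      · subst hT
        have h9 : kcz D ∅ ∅ = 1 := by rw [kcz, if_pos (union_empty _)]
        have h10 : D.kc (eT ∅) 0 (∅ ∪ ∅) = 1 := by
          rw [kc3_eq_one]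
          have : IsEmpty ↥((∅ : Finset ι) ∪ ∅) := by
            rw [union_empty]
            infer_instance
          rw [Matrix.det_isEmpty]
          exact one_ne_zero
        rw [h9, h10, Nat.cast_one, one_pow, mul_one, abs_of_nonneg (by linarith)]
        linarith
      · have hne : (∅ : Finset ι) ∪ T ≠ ∅ := fun h => hT (union_eq_empty.1 h).2
        rw [kcz_mul D hne]
        push_cast
        rw [mul_pow, sub_self, abs_zero]
        positivity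
    · rw [abs_zero]
      positivity
  have h9 : |3 ^ k * (∑ S ∈ SA3 D T α X, (kcz D T S : ℝ) ^ k -
      Nk3 k * (SA3 D T α X).card)| ≤ ε * X := by
    have e : 3 ^ k * (∑ S ∈ SA3 D T α X, (kcz D T S : ℝ) ^ k -
        Nk3 k * (SA3 D T α X).card) = (3 ^ k * ∑ S ∈ SA3 D T α X, (kcz D T S : ℝ) ^ k -
        ∑ S ∈ SA3 D T α X, (D.kc (eT T) 0 (S ∪ T) : ℝ) ^ k) +
        (∑ S ∈ SA3 D T α X, (D.kc (eT T) 0 (S ∪ T) : ℝ) ^ k -
          ((3 ^ k * Nk3 k : ℕ) : ℝ) * (SA3 D T α X).card) := by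
      push_cast
      ring
    rw [e]
    refine (abs_add_le _ _).trans ?_
    linarith
  rw [abs_mul, abs_of_pos (by positivity : (0 : ℝ) < 3 ^ k)] at h9
  exact (le_mul_of_one_le_left (abs_nonneg _) hk).trans h9

end

end Pool.Agent.Lib.MP_1a91b9_ntK.Da
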