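import Pool.Agent.Lib.MP_1a91b9_ntH.D.Fam

/-!
# MP_1a91b9_nt (cubic twists), part D: definitions of the abstract engine

`ι` is a countable set of primes with norms (`PS ι`, `nm`, `Sx`, `pr`, `Cheb`, `Zt`, `CharB` and the
families `PD`, `uni`, `nmf`, `Fam`, `FamU`, `Box`, `BoxZ`, `BoxS`, `SmB` of the quadratic case). The
symbols now have values in `ZMod 3` and are symmetric.
-/

set_option autoImplicit false

namespace Pool.Agent.Lib.MP_1a91b9_ntK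

open Finset Pool.Agent.Lib.MP_1a91b9_ntH

noncomputable section

/-- The additive character `x ↦ exp (2 π i x / 3)`. -/
def e3 (x : ZMod 3) : ℂ := ZMod.stdAddChar x

/-- The symbols and the classes. -/
structure Dat3 (ι : Type) where
  s : ι → ι → ZMod 3
  a : ι → ZMod 3

section Sys

variable {ι : Type} [DecidableEq ι]

/-- The symbol of two squarefree integers. -/
def Dat3.ss (D : Dat3 ι) (S T : Finset ι) : ZMod 3 := ∑ q ∈ S, ∑ p ∈ T, D.s q p

/-- Reciprocity. -/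
def Dat3.Sym (D : Dat3 ι) : Prop := ∀ p q, p ≠ q → D.s p q = D.s q p

/-- The exponent of the character `ch T t c`. -/
def Dat3.ex (D : Dat3 ι) (T : Finset ι) (t : ι → ZMod 3) (c : ZMod 3) (q : ι) : ZMod 3 :=
  c * D.a q + ∑ p ∈ T, t p * D.s q p

/-- The cubic character attached to `∏ p ^ (t p)` and `c`. -/
def Dat3.ch (D : Dat3 ι) (T : Finset ι) (t : ι → ZMod 3) (c : ZMod 3) (q : ι) : ℂ :=
  if q ∈ T then 0 else e3 (D.ex T t c q)

/-- The nontrivial cubic characters have bounded Euler products. -/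
def Dat3.CB (D : Dat3 ι) [PS ι] (C : ℝ) : Prop :=
  ∀ (T : Finset ι) (t : ι → ZMod 3) (c : ZMod 3), (∀ p ∈ T, t p ≠ 0) → (T ≠ ∅ ∨ c ≠ 0) →
    CharB (fun q => (D.ch T t c q).re) (C * (1 + Real.log (nm T)))

open Classical in
/-- The mean values of the nontrivial characters on squarefree integers are zero. -/
def Dat3.H3 (D : Dat3 ι) [PS ι] : Prop :=
  ∀ (B T : Finset ι) (t : ι → ZMod 3) (c : ZMod 3), T ⊆ B → (∀ p ∈ T, t p ≠ 0) →
    (T ≠ ∅ ∨ c ≠ 0) → ∀ ε : ℝ, 0 < ε → ∃ X₀ : ℕ, ∀ X : ℕ, X₀ ≤ X →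
    ‖∑ S ∈ (Sx ι X).filter (fun S => Disjoint S B), ∏ q ∈ S, e3 (D.ex T t c q)‖ ≤ ε * X

/-- The bilinear bound, with the constants `C`, `K` and the saving `c`. -/
def Dat3.BL (D : Dat3 ι) [PS ι] (C : ℝ) (K : ℕ) (c : ℝ) : Prop :=
  ∀ (A B : Finset ι → ℂ) (X : ℕ) (V : ℝ), (∀ S, ‖A S‖ ≤ 1) → (∀ S, ‖B S‖ ≤ 1) → 1 ≤ V → 2 ≤ X →
    ‖∑ S ∈ Sx ι X, ∑ T ∈ Sx ι X, if nm S * nm T ≤ X ∧ V < nm S ∧ V < nm T ∧ Disjoint S T then
        A S * B T * e3 (D.ss S T) else 0‖ ≤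
      C * X * (1 + Real.log X) ^ K * V ^ (-c)

/-- All the hypotheses on the system. -/
structure Dat3.OK (D : Dat3 ι) [PS ι] : Prop where
  sym : D.Sym
  cheb : ∃ C, Cheb ι C
  zt : ∃ C, Zt ι C
  cb : ∃ C, D.CB C
  h3 : D.H3
  bl : ∃ C K c, 0 < c ∧ D.BL C K c

/-- A label system: `Phi l m` is the exponent of the symbol `(d_l / d_m)`, `c l` and `t l` give the
linear term, which uses the symbols at the fixed primes in `B`; `m` is the size of the maximal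
unlinked sets. -/
structure LS3 (L ι : Type) where
  Phi : L → L → ZMod 3
  c : L → ZMod 3
  t : L → ι → ZMod 3
  B : Finset ι
  m : ℕ

variable {L : Type}

/-- Two labels are linked if this is not `0`. -/
def LS3.lk (Λ : LS3 L ι) (l m : L) : ZMod 3 := Λ.Phi l m + Λ.Phi m l

/-- Unlinked sets of labels. -/
def LS3.Unl (Λ : LS3 L ι) (U : Finset L) : Prop := ∀ l ∈ U, ∀ m ∈ U, Λ.lk l m = 0

open Classical in
/-- The unlinked sets of maximal size. -/
def LS3.Us (Λ : LS3 L ι) [Fintype L] : Finset (Finset L) :=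
  univ.filter fun U => Λ.Unl U ∧ U.card = Λ.m

/-- The sets of labels on which the linear term vanishes. -/
def LS3.Lin0 (Λ : LS3 L ι) (U : Finset L) : Prop :=
  ∀ l ∈ U, Λ.c l = 0 ∧ ∀ p ∈ Λ.B, Λ.t l p = 0

open Classical in
/-- The sets which contribute to the main term. -/
def LS3.Ms (Λ : LS3 L ι) [Fintype L] : Finset (Finset L) :=
  Λ.Us.filter fun U => Λ.Lin0 U

/-- The hypotheses on a label system. -/
structure LS3.OK (Λ : LS3 L ι) : Prop where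
  diag : ∀ l, Λ.Phi l l = 0
  two : 2 ≤ Λ.m
  k1 : ∀ U : Finset L, Λ.Unl U → U.card ≤ Λ.m
  k2 : ∀ U : Finset L, Λ.Unl U → U.card = Λ.m → ∀ x, x ∉ U →
    ∃ l ∈ U, ∃ l' ∈ U, Λ.lk l x ≠ Λ.lk l' x

theorem LS3.mem_Us (Λ : LS3 L ι) [Fintype L] (U : Finset L) :
    U ∈ Λ.Us ↔ Λ.Unl U ∧ U.card = Λ.m := by
  simp [LS3.Us]

theorem LS3.mem_Ms (Λ : LS3 L ι) [Fintype L] (U : Finset L) :
    U ∈ Λ.Ms ↔ U ∈ Λ.Us ∧ Λ.Lin0 U := by
  simp [LS3.Ms]

/-- The linear term. -/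
def Dat3.lin (D : Dat3 ι) (Λ : LS3 L ι) (l : L) (q : ι) : ZMod 3 := D.ex Λ.B (Λ.t l) (Λ.c l) q

variable [Fintype L] [DecidableEq L]

/-- The exponent of a family. -/
def Dat3.ee (D : Dat3 ι) (Λ : LS3 L ι) (d : L → Finset ι) : ZMod 3 :=
  ∑ l, ∑ q ∈ d l, D.lin Λ l q + ∑ l, ∑ m, Λ.Phi l m * D.ss (d l) (d m)

open Classical in
/-- The summand after expansion. -/
def Dat3.FF (D : Dat3 ι) (Λ : LS3 L ι) (d : L → Finset ι) : ℂ :=
  if Disjoint (uni d) Λ.B then ((Λ.m : ℂ)⁻¹) ^ (uni d).card * e3 (D.ee Λ d) else 0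

/-- The exponent of a labelling of `S`. -/
def Dat3.eS (D : Dat3 ι) (Λ : LS3 L ι) (S : Finset ι) (f : S → L) : ZMod 3 :=
  ∑ j : S, D.lin Λ (f j) j + ∑ j : S, ∑ k : S, Λ.Phi (f j) (f k) * D.s j k

end Sys

theorem e3_add (x y : ZMod 3) : e3 (x + y) = e3 x * e3 y := AddChar.map_add_eq_mul _ _ _

theorem e3_zero : e3 0 = 1 := AddChar.map_zero_eq_one _

theorem e3_sum {α : Type} (s : Finset α) (f : α → ZMod 3) :
    e3 (∑ i ∈ s, f i) = ∏ i ∈ s, e3 (f i) := by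
  classical
  induction s using Finset.induction_on with
  | empty => simp [e3_zero]
  | insert a s ha ih => rw [sum_insert ha, prod_insert ha, e3_add, ih]

theorem norm_e3 (x : ZMod 3) : ‖e3 x‖ = 1 := by
  unfold e3
  exact AddChar.norm_apply _ _

end

end Pool.Agent.Lib.MP_1a91b9_ntK
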