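import Pool.Agent.Lib.MP_1a91b9_ntK.D.Defs

/-!
# MP_1a91b9_nt (cubic twists), part D: the engine with a second class coordinate, definitions

The second coordinate is the symbol of `√-3`.
-/

set_option autoImplicit false

namespace Pool.Agent.Lib.MP_1a91b9_ntK

open Finset Pool.Agent.Lib.MP_1a91b9_ntH

noncomputable section

/-- The symbols and two class coordinates. -/
structure Dat3b (ι : Type) extends Dat3 ι where
  b : ι → ZMod 3

section Sys

variable {ι : Type} [DecidableEq ι]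

/-- The exponent of the character `chb T t c d`. -/
def Dat3b.exb (D : Dat3b ι) (T : Finset ι) (t : ι → ZMod 3) (c d : ZMod 3) (q : ι) : ZMod 3 :=
  c * D.a q + d * D.b q + ∑ p ∈ T, t p * D.s q p

/-- The cubic character attached to `∏ p ^ (t p)` and `(c, d)`. -/
def Dat3b.chb (D : Dat3b ι) (T : Finset ι) (t : ι → ZMod 3) (c d : ZMod 3) (q : ι) : ℂ :=
  if q ∈ T then 0 else e3 (D.exb T t c d q)

/-- The nontrivial cubic characters have bounded Euler products. -/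
def Dat3b.CBb (D : Dat3b ι) [PS ι] (C : ℝ) : Prop :=
  ∀ (T : Finset ι) (t : ι → ZMod 3) (c d : ZMod 3), (∀ p ∈ T, t p ≠ 0) →
    (T ≠ ∅ ∨ c ≠ 0 ∨ d ≠ 0) →
    CharB (fun q => (D.chb T t c d q).re) (C * (1 + Real.log (nm T)))

open Classical in
/-- The mean values of the nontrivial characters on squarefree integers are zero. -/
def Dat3b.H3b (D : Dat3b ι) [PS ι] : Prop :=
  ∀ (B T : Finset ι) (t : ι → ZMod 3) (c d : ZMod 3), T ⊆ B → (∀ p ∈ T, t p ≠ 0) →
    (T ≠ ∅ ∨ c ≠ 0 ∨ d ≠ 0) → ∀ ε : ℝ, 0 < ε → ∃ X₀ : ℕ, ∀ X : ℕ, X₀ ≤ X →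
    ‖∑ S ∈ (Sx ι X).filter (fun S => Disjoint S B), ∏ q ∈ S, e3 (D.exb T t c d q)‖ ≤ ε * X

/-- All the hypotheses on the system. -/
structure Dat3b.OKb (D : Dat3b ι) [PS ι] : Prop where
  ok : D.toDat3.OK
  cbb : ∃ C, D.CBb C
  h3b : D.H3b

/-- A label system with two class coordinates. -/
structure LS3b (L ι : Type) extends LS3 L ι where
  d : L → ZMod 3

variable {L : Type}

/-- The sets of labels on which the linear term vanishes. -/
def LS3b.Lin0b (Λ : LS3b L ι) (U : Finset L) : Prop :=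
  ∀ l ∈ U, Λ.c l = 0 ∧ Λ.d l = 0 ∧ ∀ p ∈ Λ.B, Λ.t l p = 0

open Classical in
/-- The sets which contribute to the main term. -/
def LS3b.Msb (Λ : LS3b L ι) [Fintype L] : Finset (Finset L) :=
  Λ.Us.filter fun U => Λ.Lin0b U

theorem LS3b.mem_Msb (Λ : LS3b L ι) [Fintype L] (U : Finset L) :
    U ∈ Λ.Msb ↔ U ∈ Λ.Us ∧ Λ.Lin0b U := by
  simp [LS3b.Msb]

/-- The linear term. -/
def Dat3b.linb (D : Dat3b ι) (Λ : LS3b L ι) (l : L) (q : ι) : ZMod 3 :=
  D.exb Λ.B (Λ.t l) (Λ.c l) (Λ.d l) q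

variable [Fintype L] [DecidableEq L]

/-- The exponent of a family. -/
def Dat3b.eeb (D : Dat3b ι) (Λ : LS3b L ι) (f : L → Finset ι) : ZMod 3 :=
  ∑ l, ∑ q ∈ f l, D.linb Λ l q + ∑ l, ∑ m, Λ.Phi l m * D.ss (f l) (f m)

open Classical in
/-- The summand after expansion. -/
def Dat3b.FFb (D : Dat3b ι) (Λ : LS3b L ι) (f : L → Finset ι) : ℂ :=
  if Disjoint (uni f) Λ.B then ((Λ.m : ℂ)⁻¹) ^ (uni f).card * e3 (D.eeb Λ f) else 0

/-- The exponent of a labelling of `S`. -/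
def Dat3b.eSb (D : Dat3b ι) (Λ : LS3b L ι) (S : Finset ι) (f : S → L) : ZMod 3 :=
  ∑ j : S, D.linb Λ (f j) j + ∑ j : S, ∑ k : S, Λ.Phi (f j) (f k) * D.s j k

end Sys

end

end Pool.Agent.Lib.MP_1a91b9_ntK
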