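import Pool.Agent.Lib.MP_1a91b9_ntK.D.Defs
import Pool.Agent.Lib.MP_1a91b9_ntK.D.FamC

/-!
# MP_1a91b9_nt (cubic twists), part D: expansion

The exponent of a labelling is the exponent of its family, and the expansion is a sum over families.
-/

set_option autoImplicit false

namespace Pool.Agent.Lib.MP_1a91b9_ntK.D

open Finset Pool.Agent.Lib.MP_1a91b9_ntH

noncomputable section

variable {ι : Type} [DecidableEq ι] {L : Type} [Fintype L] [DecidableEq L]

omit [DecidableEq ι] in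
private theorem expand_fib {M : Type} [AddCommMonoid M] (S : Finset ι) (f : S → L)
    (H : L → ι → M) : ∑ j : S, H (f j) j = ∑ l, ∑ q ∈ famOf S f l, H l q := by
  have h1 : ∀ l, ∑ q ∈ famOf S f l, H l q =
      ∑ j ∈ univ.filter (fun j : S => f j = l), H (f j) j := by
    intro l
    unfold famOf
    rw [sum_map]
    refine sum_congr rfl fun j hj => ?_
    rw [(mem_filter.1 hj).2]
    rfl
  rw [sum_congr rfl fun l _ => h1 l]
  exact (sum_fiberwise univ f fun j => H (f j) j).symm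

omit [DecidableEq ι] in
theorem eS_eq (D : Dat3 ι) (Λ : LS3 L ι) (S : Finset ι) (f : S → L) :
    D.eS Λ S f = D.ee Λ (famOf S f) := by
  have h1 : ∑ j : S, D.lin Λ (f j) j = ∑ l, ∑ q ∈ famOf S f l, D.lin Λ l q :=
    expand_fib S f fun l q => D.lin Λ l q
  have h2 : ∑ j : S, ∑ k : S, Λ.Phi (f j) (f k) * D.s j k =
      ∑ l, ∑ m, Λ.Phi l m * D.ss (famOf S f l) (famOf S f m) := by
    have h3 : ∀ j : S, ∑ k : S, Λ.Phi (f j) (f k) * D.s j k =
        ∑ m, ∑ p ∈ famOf S f m, Λ.Phi (f j) m * D.s j p :=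
      fun j => expand_fib S f fun m p => Λ.Phi (f j) m * D.s j p
    rw [sum_congr rfl fun j _ => h3 j,
      expand_fib S f fun l q => ∑ m, ∑ p ∈ famOf S f m, Λ.Phi l m * D.s q p]
    refine sum_congr rfl fun l _ => ?_
    rw [sum_comm]
    refine sum_congr rfl fun m _ => ?_
    unfold Dat3.ss
    rw [mul_sum]
    refine sum_congr rfl fun q _ => ?_
    rw [mul_sum]
  unfold Dat3.eS Dat3.ee
  rw [h1, h2]

open Classical in
theorem expand [PS ι] (D : Dat3 ι) (Λ : LS3 L ι) (X : ℕ) :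
    ∑ S ∈ (Sx ι X).filter (fun S => Disjoint S Λ.B),
      ((Λ.m : ℂ)⁻¹) ^ S.card * ∑ f : S → L, e3 (D.eS Λ S f) = ∑ d ∈ Box ι L X, D.FF Λ d := by
  rw [sum_boxC, sum_filter]
  refine sum_congr rfl fun S _ => ?_
  have h1 : ∑ f : S → L, e3 (D.eS Λ S f) = ∑ d ∈ Fam L S, e3 (D.ee Λ d) := by
    rw [← sum_fun_eq_famC S fun d => e3 (D.ee Λ d)]
    refine sum_congr rfl fun f _ => ?_
    rw [eS_eq]
  by_cases h : Disjoint S Λ.B
  · rw [if_pos h, h1, mul_sum]
    refine sum_congr rfl fun d hd => ?_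
    unfold Dat3.FF
    rw [(mem_Fam.1 hd).2, if_pos h]
  · rw [if_neg h]
    symm
    refine sum_eq_zero fun d hd => ?_
    unfold Dat3.FF
    rw [(mem_Fam.1 hd).2, if_neg h]

end

end Pool.Agent.Lib.MP_1a91b9_ntK.D
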