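import Pool.Agent.Lib.MP_1a91b9_ntK.D.PL3

/-!
# MP_1a91b9_nt (cubic twists), part D: a pattern with a linked pair contributes little

For a linked pair of labels the exponent of a family contains a nonzero multiple of the symbol of the two variables; the
rest of the summand is a product of a function of each of them, and the bilinear bound applies.
-/

set_option autoImplicit false

namespace Pool.Agent.Lib.MP_1a91b9_ntK.D

open Finset Pool.Agent.Lib.MP_1a91b9_ntH

noncomputable section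

variable {ι : Type} [DecidableEq ι] [PS ι] {L : Type} [Fintype L] [DecidableEq L]

set_option linter.unusedSectionVars false

private theorem linked_base_apply (l0 l1 : L) (d : L → Finset ι) (l : L) :
    base l0 l1 d l = if l = l1 then ∅ else if l = l0 then ∅ else d l := by
  unfold base
  rw [Function.update_apply, Function.update_apply]

private theorem linked_sum {M : Type} [AddCommMonoid M] {l0 l1 : L} (hne : l0 ≠ l1) (d : L → Finset ι)
    (f : L → Finset ι → M) (h0 : ∀ l, f l ∅ = 0) :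
    ∑ l, f l (d l) = f l0 (d l0) + f l1 (d l1) + ∑ l, f l (base l0 l1 d l) := by
  have key : ∀ l, f l (d l) = (if l = l0 then f l0 (d l0) else 0) + (if l = l1 then f l1 (d l1) else 0) +
      f l (base l0 l1 d l) := by
    intro l
    rw [linked_base_apply]
    by_cases h1 : l = l1
    · subst h1
      simp [hne.symm, h0]
    · by_cases h2 : l = l0
      · subst h2
        simp [h1, h0]
      · simp [h1, h2]
  rw [sum_congr rfl fun l _ => key l, sum_add_distrib, sum_add_distrib]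
  simp

private theorem linked_PD_base (l0 l1 : L) {d : L → Finset ι} (hd : PD d) : PD (base l0 l1 d) := by
  intro l m hlm
  rw [linked_base_apply, linked_base_apply]
  split_ifs <;> simp [hd l m hlm]

private theorem linked_disj0 (l0 l1 : L) {d : L → Finset ι} (hd : PD d) :
    Disjoint (d l0) (uni (base l0 l1 d)) := by
  unfold uni
  rw [disjoint_biUnion_right]
  intro l _
  rw [linked_base_apply]
  split_ifs with h1 h2
  · simp
  · simp
  · exact hd l0 l fun h => h2 h.symm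

private theorem linked_disj1 (l0 l1 : L) {d : L → Finset ι} (hd : PD d) :
    Disjoint (d l1) (uni (base l0 l1 d)) := by
  unfold uni
  rw [disjoint_biUnion_right]
  intro l _
  rw [linked_base_apply]
  split_ifs with h1 h2
  · simp
  · simp
  · exact hd l1 l fun h => h1 h.symm

private theorem linked_card_uni {d : L → Finset ι} (hd : PD d) : (uni d).card = ∑ l, (d l).card := by
  unfold uni
  exact card_biUnion fun l _ m _ h => hd l m h

private theorem linked_card {l0 l1 : L} (hne : l0 ≠ l1) {d : L → Finset ι} (hd : PD d) :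
    (uni d).card = (d l0).card + (d l1).card + (uni (base l0 l1 d)).card := by
  rw [linked_card_uni hd, linked_card_uni (linked_PD_base l0 l1 hd)]
  exact linked_sum hne d (fun _ S => S.card) fun _ => card_empty

private theorem linked_disjB (l0 l1 : L) (d : L → Finset ι) (B : Finset ι) :
    Disjoint (uni d) B ↔ Disjoint (uni (base l0 l1 d)) B ∧ Disjoint (d l0) B ∧ Disjoint (d l1) B := by
  unfold uni
  rw [disjoint_biUnion_left, disjoint_biUnion_left]
  constructor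
  · intro h
    refine ⟨fun l _ => ?_, h l0 (mem_univ _), h l1 (mem_univ _)⟩
    rw [linked_base_apply]
    split_ifs with h1 h2
    · simp
    · simp
    · exact h l (mem_univ _)
  · rintro ⟨h, h0, h1⟩ l _
    by_cases e1 : l = l1
    · rw [e1]; exact h1
    · by_cases e0 : l = l0
      · rw [e0]; exact h0
      · have := h l (mem_univ _)
        rwa [linked_base_apply, if_neg e1, if_neg e0] at this

private theorem linked_ss_left (D : Dat3 ι) (S : Finset ι) : D.ss ∅ S = 0 := by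
  simp [Dat3.ss]

private theorem linked_ss_right (D : Dat3 ι) (S : Finset ι) : D.ss S ∅ = 0 := by
  simp [Dat3.ss]

private theorem linked_ss_symm (D : Dat3 ι) (hR : D.Sym) {S T : Finset ι} (h : Disjoint S T) :
    D.ss T S = D.ss S T := by
  unfold Dat3.ss
  rw [sum_comm]
  refine sum_congr rfl fun q hq => sum_congr rfl fun p hp => ?_
  exact hR p q fun e => disjoint_left.1 h hq (e ▸ hp)

private theorem linked_ee {l0 l1 : L} (hne : l0 ≠ l1) (D : Dat3 ι) (hR : D.Sym) (Λ : LS3 L ι)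
    (hdiag : ∀ l, Λ.Phi l l = 0) {d : L → Finset ι} (hd : PD d) :
    D.ee Λ d = D.ee Λ (base l0 l1 d) +
      (∑ q ∈ d l0, D.lin Λ l0 q + ∑ k, (Λ.Phi l0 k * D.ss (d l0) (base l0 l1 d k) +
        Λ.Phi k l0 * D.ss (base l0 l1 d k) (d l0))) +
      (∑ q ∈ d l1, D.lin Λ l1 q + ∑ k, (Λ.Phi l1 k * D.ss (d l1) (base l0 l1 d k) +
        Λ.Phi k l1 * D.ss (base l0 l1 d k) (d l1))) + Λ.lk l0 l1 * D.ss (d l0) (d l1) := by
  have e1 : ∑ l, ∑ q ∈ d l, D.lin Λ l q = ∑ q ∈ d l0, D.lin Λ l0 q +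
      ∑ q ∈ d l1, D.lin Λ l1 q + ∑ l, ∑ q ∈ base l0 l1 d l, D.lin Λ l q :=
    linked_sum hne d (fun l S => ∑ q ∈ S, D.lin Λ l q) fun l => sum_empty
  have e2 : ∑ l, ∑ m, Λ.Phi l m * D.ss (d l) (d m) =
      ∑ m, Λ.Phi l0 m * D.ss (d l0) (d m) + ∑ m, Λ.Phi l1 m * D.ss (d l1) (d m) +
        ∑ l, ∑ m, Λ.Phi l m * D.ss (base l0 l1 d l) (d m) :=
    linked_sum hne d (fun l S => ∑ m, Λ.Phi l m * D.ss S (d m)) fun l => by
      show ∑ m, Λ.Phi l m * D.ss ∅ (d m) = 0
      exact sum_eq_zero fun m _ => by rw [linked_ss_left, mul_zero]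
  have e3 : ∀ (l : L) (R : Finset ι), ∑ m, Λ.Phi l m * D.ss R (d m) =
      Λ.Phi l l0 * D.ss R (d l0) + Λ.Phi l l1 * D.ss R (d l1) +
        ∑ m, Λ.Phi l m * D.ss R (base l0 l1 d m) := fun l R =>
    linked_sum hne d (fun m S => Λ.Phi l m * D.ss R S) fun m => by
      show Λ.Phi l m * D.ss R ∅ = 0
      rw [linked_ss_right, mul_zero]
  have e4 : D.ss (d l1) (d l0) = D.ss (d l0) (d l1) := linked_ss_symm D hR (hd l0 l1 hne)
  unfold Dat3.ee LS3.lk
  rw [e1, e2, e3 l0 (d l0), e3 l1 (d l1), sum_congr rfl fun l _ => e3 l (base l0 l1 d l), e4, hdiag l0,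
    hdiag l1]
  simp only [sum_add_distrib]
  ring

open Classical in
private def linked_al (D : Dat3 ι) (Λ : LS3 L ι) (V : ℕ) (Z : Finset L) (l0 l1 : L)
    (b : L → Finset ι) (S : Finset ι) : ℂ :=
  if PD b ∧ Disjoint S (uni b) ∧ Disjoint (uni b) Λ.B ∧ Disjoint S Λ.B ∧
      (∀ l, l ≠ l0 → l ≠ l1 → (l ∈ Z ↔ V < nm (b l))) then
    ((Λ.m : ℂ)⁻¹) ^ (uni b).card * e3 (D.ee Λ b) * (((Λ.m : ℂ)⁻¹) ^ S.card *
      e3 (∑ q ∈ S, D.lin Λ l0 q + ∑ k, (Λ.Phi l0 k * D.ss S (b k) + Λ.Phi k l0 * D.ss (b k) S)))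
  else 0

open Classical in
private def linked_be (D : Dat3 ι) (Λ : LS3 L ι) (l1 : L) (b : L → Finset ι) (T : Finset ι) : ℂ :=
  if Disjoint T (uni b) ∧ Disjoint T Λ.B then
    ((Λ.m : ℂ)⁻¹) ^ T.card * e3 (∑ q ∈ T, D.lin Λ l1 q +
      ∑ k, (Λ.Phi l1 k * D.ss T (b k) + Λ.Phi k l1 * D.ss (b k) T))
  else 0

private theorem linked_term_le (Λ : LS3 L ι) (hm : 2 ≤ Λ.m) (n : ℕ) (x : ZMod 3) :
    ‖((Λ.m : ℂ)⁻¹) ^ n * e3 x‖ ≤ 1 := by
  rw [norm_mul, norm_e3, mul_one, norm_pow, norm_inv, Complex.norm_natCast]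
  refine pow_le_one₀ (inv_nonneg.2 (Nat.cast_nonneg _)) (inv_le_one_of_one_le₀ ?_)
  exact_mod_cast (by omega : 1 ≤ Λ.m)

private theorem linked_al_le (D : Dat3 ι) (Λ : LS3 L ι) (hm : 2 ≤ Λ.m) (V : ℕ) (Z : Finset L) (l0 l1 : L)
    (b : L → Finset ι) (S : Finset ι) : ‖linked_al D Λ V Z l0 l1 b S‖ ≤ 1 := by
  unfold linked_al
  split_ifs with h
  · rw [norm_mul]
    exact mul_le_one₀ (linked_term_le Λ hm _ _) (norm_nonneg _) (linked_term_le Λ hm _ _)
  · rw [norm_zero]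
    exact zero_le_one

private theorem linked_be_le (D : Dat3 ι) (Λ : LS3 L ι) (hm : 2 ≤ Λ.m) (l1 : L)
    (b : L → Finset ι) (T : Finset ι) : ‖linked_be D Λ l1 b T‖ ≤ 1 := by
  unfold linked_be
  split_ifs with h
  · exact linked_term_le Λ hm _ _
  · rw [norm_zero]
    exact zero_le_one

private theorem linked_al_supp (D : Dat3 ι) (Λ : LS3 L ι) (V : ℕ) (Z : Finset L) (l0 l1 : L)
    (b : L → Finset ι) (S : Finset ι) (h : linked_al D Λ V Z l0 l1 b S ≠ 0) : PD b ∧ Disjoint S (uni b) := by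
  unfold linked_al at h
  have c := by_contra fun h' => h (if_neg h')
  exact ⟨c.1, c.2.1⟩

private theorem linked_be_supp (D : Dat3 ι) (Λ : LS3 L ι) (l1 : L)
    (b : L → Finset ι) (T : Finset ι) (h : linked_be D Λ l1 b T ≠ 0) : Disjoint T (uni b) := by
  unfold linked_be at h
  have c := by_contra fun h' => h (if_neg h')
  exact c.1

open Classical in
private theorem linked_main {l0 l1 : L} (hne : l0 ≠ l1) (D : Dat3 ι) (hR : D.Sym) (Λ : LS3 L ι)
    (hdiag : ∀ l, Λ.Phi l l = 0) (V : ℕ) (Z : Finset L) {d : L → Finset ι} (hd : PD d) :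
    linked_al D Λ V Z l0 l1 (base l0 l1 d) (d l0) * linked_be D Λ l1 (base l0 l1 d) (d l1) *
        e3 (Λ.lk l0 l1 * D.ss (d l0) (d l1)) =
      if ∀ l, l ≠ l0 → l ≠ l1 → (l ∈ Z ↔ V < nm (d l)) then D.FF Λ d else 0 := by
  have hb : (∀ l, l ≠ l0 → l ≠ l1 → (l ∈ Z ↔ V < nm (base l0 l1 d l))) ↔
      ∀ l, l ≠ l0 → l ≠ l1 → (l ∈ Z ↔ V < nm (d l)) := by
    refine forall_congr' fun l => forall_congr' fun h0 => forall_congr' fun h1 => ?_
    rw [linked_base_apply, if_neg h1, if_neg h0]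
  by_cases h2 : ∀ l, l ≠ l0 → l ≠ l1 → (l ∈ Z ↔ V < nm (d l))
  · rw [if_pos h2]
    by_cases hB : Disjoint (uni d) Λ.B
    · have hB' := (linked_disjB l0 l1 d Λ.B).1 hB
      unfold linked_al linked_be
      rw [if_pos ⟨linked_PD_base l0 l1 hd, linked_disj0 l0 l1 hd, hB'.1, hB'.2.1, hb.2 h2⟩,
        if_pos ⟨linked_disj1 l0 l1 hd, hB'.2.2⟩]
      unfold Dat3.FF
      rw [if_pos hB, linked_ee hne D hR Λ hdiag hd, linked_card hne hd, pow_add, pow_add]
      simp only [e3_add]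
      ring
    · have hF : D.FF Λ d = 0 := by
        unfold Dat3.FF
        rw [if_neg hB]
      rw [hF]
      by_cases h3 : Disjoint (d l1) Λ.B
      · have : linked_al D Λ V Z l0 l1 (base l0 l1 d) (d l0) = 0 := by
          unfold linked_al
          exact if_neg fun h => hB ((linked_disjB l0 l1 d Λ.B).2 ⟨h.2.2.1, h.2.2.2.1, h3⟩)
        rw [this, zero_mul, zero_mul]
      · have : linked_be D Λ l1 (base l0 l1 d) (d l1) = 0 := by
          unfold linked_be
          exact if_neg fun h => h3 h.2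
        rw [this, mul_zero, zero_mul]
  · rw [if_neg h2]
    have : linked_al D Λ V Z l0 l1 (base l0 l1 d) (d l0) = 0 := by
      unfold linked_al
      exact if_neg fun h => h2 (hb.1 h.2.2.2.2)
    rw [this, zero_mul, zero_mul]

theorem linked_bound (D : Dat3 ι) (hD : D.OK) (Λ : LS3 L ι) (hΛ : Λ.OK) :
    ∃ (C : ℝ) (K : ℕ) (c : ℝ), 0 < C ∧ 0 < c ∧ ∀ (X V : ℕ) (Z : Finset L) (l0 l1 : L), 2 ≤ X → 1 ≤ V →
      l0 ∈ Z → l1 ∈ Z → Λ.lk l0 l1 ≠ 0 →
      ‖∑ d ∈ BoxZ ι X V Z, D.FF Λ d‖ ≤ C * X * (1 + Real.log X) ^ K * (V : ℝ) ^ (-c) := by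
  obtain ⟨C0, K0, c0, hc0, hBL⟩ := hD.bl
  obtain ⟨C2, hZ⟩ := hD.zt
  obtain ⟨H, hH1, hH⟩ := harm hZ
  obtain ⟨C, hC, hpl⟩ := pl3c (L := L) D hBL hH1 hH
  refine ⟨C, K0 + Fintype.card L, c0, hC, hc0, ?_⟩
  intro X V Z l0 l1 hX hV h0 h1 hlk
  have hne : l0 ≠ l1 := by
    intro h
    apply hlk
    rw [h]
    unfold LS3.lk
    rw [hΛ.diag, add_zero]
  classical
  have key : ∑ d ∈ BoxZ ι X V Z, D.FF Λ d =
      ∑ d ∈ (Box ι L X).filter (fun d => V < nm (d l0) ∧ V < nm (d l1)),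
        linked_al D Λ V Z l0 l1 (base l0 l1 d) (d l0) * linked_be D Λ l1 (base l0 l1 d) (d l1) *
          e3 (Λ.lk l0 l1 * D.ss (d l0) (d l1)) := by
    have e1 : ∑ d ∈ (Box ι L X).filter (fun d => V < nm (d l0) ∧ V < nm (d l1)),
        linked_al D Λ V Z l0 l1 (base l0 l1 d) (d l0) * linked_be D Λ l1 (base l0 l1 d) (d l1) *
          e3 (Λ.lk l0 l1 * D.ss (d l0) (d l1)) =
        ∑ d ∈ (Box ι L X).filter (fun d => V < nm (d l0) ∧ V < nm (d l1)),
          if ∀ l, l ≠ l0 → l ≠ l1 → (l ∈ Z ↔ V < nm (d l)) then D.FF Λ d else 0 := by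
      refine sum_congr rfl fun d hd => ?_
      exact linked_main hne D hD.sym Λ hΛ.diag V Z (mem_Box.1 (mem_filter.1 hd).1).1
    rw [e1, ← sum_filter, filter_filter]
    refine sum_congr ?_ fun _ _ => rfl
    ext d
    rw [mem_BoxZ, mem_filter, mem_Box, and_assoc]
    refine and_congr_right fun _ => and_congr_right fun _ => ⟨fun h => ⟨⟨(h l0).1 h0, (h l1).1 h1⟩,
      fun l _ _ => h l⟩, fun h l => ?_⟩
    by_cases e0 : l = l0
    · subst e0
      exact ⟨fun _ => h.1.1, fun _ => h0⟩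
    · by_cases e1 : l = l1
      · subst e1
        exact ⟨fun _ => h.1.2, fun _ => h1⟩
      · exact h.2 l e0 e1
  rw [key]
  refine (le_of_eq ?_).trans (hpl (Λ.lk l0 l1) l0 l1 (fun d => linked_al D Λ V Z l0 l1 (base l0 l1 d) (d l0) *
      linked_be D Λ l1 (base l0 l1 d) (d l1) * e3 (Λ.lk l0 l1 * D.ss (d l0) (d l1)))
      (linked_al D Λ V Z l0 l1) (linked_be D Λ l1) V X hlk hne hV hX
      (fun b S => linked_al_le D Λ hΛ.two V Z l0 l1 b S)
      (fun b S => linked_be_le D Λ hΛ.two l1 b S)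
      (fun b S h => linked_al_supp D Λ V Z l0 l1 b S h)
      (fun b S h => linked_be_supp D Λ l1 b S h) (fun d _ => rfl))
  refine congrArg norm (sum_congr ?_ fun _ _ => rfl)
  ext d
  simp only [mem_filter]

end

end Pool.Agent.Lib.MP_1a91b9_ntK.D
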