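import Pool.Agent.Lib.MP_1a91b9_ntK.D.InnerB
import Pool.Agent.Lib.MP_1a91b9_ntK.D.InnerT
import Pool.Agent.Lib.MP_1a91b9_ntK.D.FamC

/-!
# MP_1a91b9_nt (cubic twists), part D: the contribution of a maximal unlinked set

The families of `BoxS` are split into their small part `b` and their part in `U` (`sum_splitC`). The
term with `b` empty gives the main term (`inner_triv`); the other terms are bounded by
`inner_nontriv` and summed with `harm_fam`.
-/

set_option autoImplicit false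

namespace Pool.Agent.Lib.MP_1a91b9_ntK.D

open Finset Pool.Agent.Lib.MP_1a91b9_ntH

noncomputable section

variable {ι : Type} [DecidableEq ι] [PS ι] {L : Type} [Fintype L] [DecidableEq L]

theorem main_U (D : Dat3 ι) (hD : D.OK) (Λ : LS3 L ι) (hΛ : Λ.OK) :
    ∃ C : ℝ, 0 < C ∧ ∀ ε : ℝ, 0 < ε → ∃ X₀ : ℕ, ∀ X V : ℕ, X₀ ≤ X → 1 ≤ V →
      V ^ (2 * Fintype.card L) ≤ X → ∀ U ∈ Λ.Us,
      ‖∑ d ∈ BoxS ι X V U, D.FF Λ d - mt Λ X U‖ ≤
        ε * X + C * X * Real.log X ^ (-(1 / ((2 * Λ.m : ℕ) : ℝ))) *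
          (1 + Real.log V) ^ (Fintype.card L + 1) := by
  classical
  obtain ⟨C1, hC1, hin⟩ := inner_nontriv D hD Λ hΛ
  obtain ⟨C2, hzt⟩ := hD.zt
  obtain ⟨K, hK1, hharm⟩ := harm hzt
  have hK0 : (0 : ℝ) < K := by linarith
  refine ⟨4 * C1 * K ^ Fintype.card L, by positivity, ?_⟩
  intro ε hε
  obtain ⟨X₀, hX₀⟩ := inner_triv D hD Λ hΛ ε hε
  refine ⟨max X₀ 16, ?_⟩
  intro X V hX hV hVX U hU
  have hXX₀ : X₀ ≤ X := le_trans (le_max_left _ _) hX
  have hX16 : 16 ≤ X := le_trans (le_max_right _ _) hX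
  have hM2' : 2 ≤ 2 * Λ.m := by
    have := hΛ.two
    omega
  set M : ℕ := 2 * Λ.m with hM
  have hm2 : (2 : ℝ) ≤ M := by exact_mod_cast hM2'
  have hδ0 : (0 : ℝ) < 1 / (M : ℝ) := by positivity
  have hδ1 : 1 / (M : ℝ) ≤ 1 := by
    rw [div_le_one (by linarith)]
    linarith
  have hlV : 0 ≤ Real.log V := Real.log_nonneg (by exact_mod_cast hV)
  have hlX : 0 ≤ Real.log X ^ (-(1 / (M : ℝ))) :=
    Real.rpow_nonneg (Real.log_nonneg (by exact_mod_cast (by omega : 1 ≤ X))) _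
  have hb0 : (fun _ : L => (∅ : Finset ι)) ∈ SmB ι V U := by
    rw [mem_SmB]
    refine ⟨fun l => ?_, fun l m _ => ?_, fun l _ => rfl⟩
    · rw [nm_empty]
      exact hV
    · exact disjoint_empty_left _
  have hn0 : nmf (fun _ : L => (∅ : Finset ι)) = 1 := by
    unfold nmf
    simp [nm_empty]
  rw [sum_splitC X V hV U (D.FF Λ), ← add_sum_erase _ _ hb0]
  have hT0 : ∑ S ∈ (Sx ι (X / nmf (fun _ : L => (∅ : Finset ι)))).filter
      (fun S => Disjoint S (uni (fun _ : L => (∅ : Finset ι)))),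
      ∑ d ∈ FamU U S, D.FF Λ (fun l => (fun _ : L => (∅ : Finset ι)) l ∪ d l) =
      ∑ S ∈ Sx ι X, ∑ d ∈ FamU U S, D.FF Λ d := by
    rw [hn0, Nat.div_one, uni_empty, filter_true_of_mem fun S _ => disjoint_empty_right S]
    refine sum_congr rfl fun S _ => sum_congr rfl fun d _ => ?_
    have : (fun l => (fun _ : L => (∅ : Finset ι)) l ∪ d l) = d := by
      funext l
      exact empty_union _
    rw [this]
  rw [hT0]
  have hmain := hX₀ X hXX₀ U hU
  have hrest : ‖∑ b ∈ (SmB ι V U).erase (fun _ : L => (∅ : Finset ι)),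
      ∑ S ∈ (Sx ι (X / nmf b)).filter (fun S => Disjoint S (uni b)),
        ∑ d ∈ FamU U S, D.FF Λ (fun l => b l ∪ d l)‖ ≤
      4 * C1 * K ^ Fintype.card L * X * Real.log X ^ (-(1 / (M : ℝ))) *
        (1 + Real.log V) ^ (Fintype.card L + 1) := by
    have hterm : ∀ b ∈ (SmB ι V U).erase (fun _ : L => (∅ : Finset ι)),
        ‖∑ S ∈ (Sx ι (X / nmf b)).filter (fun S => Disjoint S (uni b)),
          ∑ d ∈ FamU U S, D.FF Λ (fun l => b l ∪ d l)‖ ≤
        4 * C1 * X * Real.log X ^ (-(1 / (M : ℝ))) * (1 + Real.log V) * (1 / nmf b) := by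
      intro b hb
      obtain ⟨hne, hb'⟩ := mem_erase.1 hb
      have hub : uni b ≠ ∅ := by
        intro h
        apply hne
        funext l
        exact subset_empty.1 (h ▸ sub_uni b l)
      have hP1 := one_le_nmf b
      have hP2 : nmf b ^ 2 ≤ X := by
        refine le_trans ?_ hVX
        calc nmf b ^ 2 ≤ (V ^ Fintype.card L) ^ 2 := Nat.pow_le_pow_left (nmf_le_pow hb') 2
          _ = V ^ (2 * Fintype.card L) := by rw [← pow_mul, mul_comm]
      obtain ⟨hY2, hYle, hYlog⟩ := div_log X (nmf b) (1 / (M : ℝ)) hX16 hP1 hP2 hδ0 hδ1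
      refine (hin U hU V hV b hb' hub _ hY2).trans ?_
      have hlY : 0 ≤ Real.log ((X / nmf b : ℕ) : ℝ) ^ (-(1 / (M : ℝ))) :=
        Real.rpow_nonneg (Real.log_nonneg (by exact_mod_cast (by omega : 1 ≤ X / nmf b))) _
      have hP0 : (0 : ℝ) ≤ 1 / nmf b := by positivity
      calc C1 * ((X / nmf b : ℕ) : ℝ) * Real.log ((X / nmf b : ℕ) : ℝ) ^ (-(1 / (M : ℝ))) *
            (1 + Real.log V)
          = C1 * (1 + Real.log V) * (((X / nmf b : ℕ) : ℝ) *
            Real.log ((X / nmf b : ℕ) : ℝ) ^ (-(1 / (M : ℝ)))) := by ring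
        _ ≤ C1 * (1 + Real.log V) * ((X * (1 / nmf b)) *
            (4 * Real.log X ^ (-(1 / (M : ℝ))))) := by
            apply mul_le_mul_of_nonneg_left _ (by positivity)
            exact mul_le_mul hYle hYlog hlY (by positivity)
        _ = 4 * C1 * X * Real.log X ^ (-(1 / (M : ℝ))) * (1 + Real.log V) * (1 / nmf b) := by
            ring
    calc ‖∑ b ∈ (SmB ι V U).erase (fun _ : L => (∅ : Finset ι)),
          ∑ S ∈ (Sx ι (X / nmf b)).filter (fun S => Disjoint S (uni b)),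
            ∑ d ∈ FamU U S, D.FF Λ (fun l => b l ∪ d l)‖
        ≤ ∑ b ∈ (SmB ι V U).erase (fun _ : L => (∅ : Finset ι)),
          ‖∑ S ∈ (Sx ι (X / nmf b)).filter (fun S => Disjoint S (uni b)),
            ∑ d ∈ FamU U S, D.FF Λ (fun l => b l ∪ d l)‖ := norm_sum_le _ _
      _ ≤ ∑ b ∈ (SmB ι V U).erase (fun _ : L => (∅ : Finset ι)),
          4 * C1 * X * Real.log X ^ (-(1 / (M : ℝ))) * (1 + Real.log V) * (1 / nmf b) :=
          sum_le_sum hterm
      _ ≤ ∑ b ∈ SmB ι V U,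
          4 * C1 * X * Real.log X ^ (-(1 / (M : ℝ))) * (1 + Real.log V) * (1 / nmf b) :=
          sum_le_sum_of_subset_of_nonneg (erase_subset _ _) fun b _ _ => by positivity
      _ = 4 * C1 * X * Real.log X ^ (-(1 / (M : ℝ))) * (1 + Real.log V) *
          ∑ b ∈ SmB ι V U, (1 : ℝ) / nmf b := by rw [mul_sum]
      _ ≤ 4 * C1 * X * Real.log X ^ (-(1 / (M : ℝ))) * (1 + Real.log V) *
          (K ^ Fintype.card L * (1 + Real.log V) ^ Fintype.card L) :=
          mul_le_mul_of_nonneg_left (harm_fam hK1 hharm V hV U) (by positivity)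
      _ = 4 * C1 * K ^ Fintype.card L * X * Real.log X ^ (-(1 / (M : ℝ))) *
          (1 + Real.log V) ^ (Fintype.card L + 1) := by
          rw [pow_succ]
          ring
  refine le_trans ?_ (add_le_add hmain hrest)
  refine le_trans (le_of_eq ?_) (norm_add_le _ _)
  congr 1
  ring

end

end Pool.Agent.Lib.MP_1a91b9_ntK.D
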