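import Pool.Agent.Lib.MP_1a91b9_ntK.D.L3

/-!
# MP_1a91b9_nt (cubic twists), part D: the matrix and the expansion of the powers of its kernel size
-/

set_option autoImplicit false

namespace Pool.Agent.Lib.MP_1a91b9_ntK

open Finset

section Mat

variable {ι : Type} [DecidableEq ι]

/-- The exponents: `-1` on `T`, `1` outside `T`. -/
def eT (T : Finset ι) (q : ι) : ZMod 3 := if q ∈ T then -1 else 1

theorem eT_mul (T : Finset ι) (q : ι) : eT T q * eT T q = 1 := by
  rw [eT]
  split_ifs <;> decide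

/-- The symmetric matrix attached to the set of primes `R` with exponents `e`. -/
def Dat3.N (D : Dat3 ι) (e : ι → ZMod 3) (τ : ZMod 3) (R : Finset ι) : Matrix R R (ZMod 3) :=
  fun i j => if i = j then e i * (τ * D.a i + ∑ l ∈ R.erase i, D.s i l * e l) else -D.s i j

/-- The size of the kernel. -/
def Dat3.kc (D : Dat3 ι) (e : ι → ZMod 3) (τ : ZMod 3) (R : Finset ι) : ℕ :=
  Fintype.card {v : R → ZMod 3 // (D.N e τ R).mulVec v = 0}

theorem Dat3.N_mulVec (D : Dat3 ι) (e : ι → ZMod 3) (he : ∀ i, e i * e i = 1) (τ : ZMod 3)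
    (R : Finset ι) (v : R → ZMod 3) (j : R) :
    (D.N e τ R).mulVec v j = e j * (τ * D.a j) * v j +
      ∑ l : R, D.s j l * (e j * e l * v j - v l) := by
  have h1 : ∑ k ∈ R.erase (j : ι), D.s j k * e k = ∑ l : R, D.s j l * e l - D.s j j * e j := by
    have h2 : ∑ l : R, D.s j l * e l = ∑ k ∈ R, D.s j k * e k :=
      sum_coe_sort R fun k => D.s j k * e k
    rw [h2, ← add_sum_erase R _ j.2]
    ring
  have h3 : (D.N e τ R).mulVec v j = ∑ l : R, (-(D.s j l * v l) +
      if l = j then (e j * (τ * D.a j) + ∑ l : R, D.s j l * (e j * e l)) * v j else 0) := by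
    show ∑ l : R, D.N e τ R j l * v l = _
    refine sum_congr rfl fun l _ => ?_
    by_cases hl : l = j
    · subst hl
      rw [if_pos rfl, Dat3.N, if_pos rfl, h1]
      have h4 : ∑ m : R, D.s l m * (e l * e m) = e l * ∑ m : R, D.s l m * e m := by
        rw [mul_sum]
        exact sum_congr rfl fun m _ => by ring
      rw [h4]
      linear_combination (-(D.s l l) * v l) * he l
    · rw [if_neg hl, Dat3.N, if_neg fun h => hl h.symm, add_zero]
      ring
  rw [h3, sum_add_distrib, sum_ite_eq', if_pos (mem_univ _)]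
  simp only [mul_sub, sum_sub_distrib, sum_neg_distrib]
  have h5 : ∑ l : R, D.s j l * (e j * e l * v j) = (∑ l : R, D.s j l * (e j * e l)) * v j := by
    rw [sum_mul]
    exact sum_congr rfl fun l _ => by ring
  rw [h5]
  ring

end Mat

namespace Da

variable {k : ℕ} {ι : Type} [DecidableEq ι]

/-- The exponents of the pairs. -/
def Phi3 (l m : Lab3 k) : ZMod 3 := Q3 l - l.2 ⬝ᵥ m.1

theorem Phi3_self (l : Lab3 k) : Phi3 l l = 0 := by
  rw [Phi3, Q3, dotProduct_comm, sub_self]

theorem Phi3_add (l m : Lab3 k) : Phi3 l m + Phi3 m l = Q3 (l - m) := by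
  rw [Q3_sub, Phi3, Phi3, B3, dotProduct_comm l.1 m.2]
  rw [dotProduct_comm m.1 l.2]
  ring

/-- The exponent of a labelling. -/
def EE (D : Dat3 ι) (e : ι → ZMod 3) (τ : ZMod 3) (R : Finset ι) (f : R → Lab3 k) : ZMod 3 :=
  ∑ j : R, e j * (τ * D.a j) * Q3 (f j) +
    ∑ i : R, ∑ j : R, e i * e j * D.s i j * Phi3 (f i) (f j)

theorem sum_dotR {n : Type} [Fintype n] [DecidableEq n] (z : n → ZMod 3) :
    ∑ v : n → ZMod 3, e3 (v ⬝ᵥ z) = if z = 0 then (3 ^ Fintype.card n : ℂ) else 0 := by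
  split_ifs with h
  · subst h
    simp only [dotProduct_zero, e3_zero, sum_const, card_univ, Fintype.card_fun,
      ZMod.card, nsmul_eq_mul, mul_one]
    push_cast
    rfl
  · obtain ⟨i, hi⟩ := Function.ne_iff.1 h
    refine sum_e3_eq_zero (fun v => v ⬝ᵥ z) (Pi.single i 1) (z i) hi fun v => ?_
    rw [add_dotProduct, single_dotProduct, one_mul]

theorem exp_eq3 (D : Dat3 ι) (e : ι → ZMod 3) (he : ∀ i, e i * e i = 1) (τ : ZMod 3)
    (R : Finset ι) (g : Fin k → (R → ZMod 3) × (R → ZMod 3)) :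
    ∑ i, (g i).2 ⬝ᵥ (D.N e τ R).mulVec (g i).1 =
      EE D e τ R fun j => (fun i => e j * (g i).1 j, fun i => e j * (g i).2 j) := by
  have h1 : ∀ i, (g i).2 ⬝ᵥ (D.N e τ R).mulVec (g i).1 =
      ∑ j : R, (e j * (τ * D.a j) * ((g i).1 j * (g i).2 j) +
        ∑ l : R, D.s j l * (e j * e l * ((g i).1 j * (g i).2 j) - (g i).2 j * (g i).1 l)) := by
    intro i
    rw [dotProduct]
    refine sum_congr rfl fun j _ => ?_
    rw [D.N_mulVec e he, mul_add, mul_sum]
    congr 1
    · ring
    · exact sum_congr rfl fun l _ => by ring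
  simp only [h1, sum_add_distrib]
  rw [EE]
  congr 1
  · rw [sum_comm]
    refine sum_congr rfl fun j _ => ?_
    rw [Q3, dotProduct, ← mul_sum]
    congr 1
    refine sum_congr rfl fun i _ => ?_
    linear_combination (-((g i).1 j * (g i).2 j)) * he j
  · rw [sum_comm]
    refine sum_congr rfl fun j _ => ?_
    rw [sum_comm]
    refine sum_congr rfl fun l _ => ?_
    rw [Phi3, Q3, dotProduct, dotProduct, ← sum_sub_distrib, mul_sum]
    refine sum_congr rfl fun i _ => ?_
    linear_combination (D.s j l * ((g i).2 j * (g i).1 l * (e l * e l) -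
      e j * e l * ((g i).1 j * (g i).2 j))) * he j + D.s j l * (g i).2 j * (g i).1 l * he l

theorem kc_mul3 (D : Dat3 ι) (e : ι → ZMod 3) (τ : ZMod 3) (R : Finset ι) :
    (D.kc e τ R : ℂ) * 3 ^ R.card =
      ∑ p : (R → ZMod 3) × (R → ZMod 3), e3 (p.2 ⬝ᵥ (D.N e τ R).mulVec p.1) := by
  rw [Fintype.sum_prod_type]
  have h1 : ∀ v : R → ZMod 3, ∑ w : R → ZMod 3, e3 (w ⬝ᵥ (D.N e τ R).mulVec v) =
      if (D.N e τ R).mulVec v = 0 then (3 ^ R.card : ℂ) else 0 := by
    intro v
    rw [sum_dotR, Fintype.card_coe]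
  simp only [h1]
  rw [← sum_filter, sum_const, nsmul_eq_mul, Dat3.kc, Fintype.card_subtype]

/-- The bijection between the vectors and the labellings. -/
def vecLab (e : ι → ZMod 3) (he : ∀ i, e i * e i = 1) (R : Finset ι) :
    (Fin k → (R → ZMod 3) × (R → ZMod 3)) ≃ (R → Lab3 k) where
  toFun g j := (fun i => e j * (g i).1 j, fun i => e j * (g i).2 j)
  invFun f i := (fun j => e j * (f j).1 i, fun j => e j * (f j).2 i)
  left_inv g := by
    funext i
    refine Prod.ext (funext fun j => ?_) (funext fun j => ?_)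
    · show e j * (e j * (g i).1 j) = (g i).1 j
      rw [← mul_assoc, he, one_mul]
    · show e j * (e j * (g i).2 j) = (g i).2 j
      rw [← mul_assoc, he, one_mul]
  right_inv f := by
    funext j
    refine Prod.ext (funext fun i => ?_) (funext fun i => ?_)
    · show e j * (e j * (f j).1 i) = (f j).1 i
      rw [← mul_assoc, he, one_mul]
    · show e j * (e j * (f j).2 i) = (f j).2 i
      rw [← mul_assoc, he, one_mul]

/-- The expansion of the `k`-th power of the kernel size. -/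
theorem kc_pow_mul3 (D : Dat3 ι) (e : ι → ZMod 3) (he : ∀ i, e i * e i = 1) (τ : ZMod 3)
    (R : Finset ι) :
    (D.kc e τ R : ℂ) ^ k * (3 ^ k) ^ R.card = ∑ f : R → Lab3 k, e3 (EE D e τ R f) := by
  have h : ((3 : ℂ) ^ k) ^ R.card = (3 ^ R.card) ^ k := by rw [← pow_mul, ← pow_mul, mul_comm]
  rw [h, ← mul_pow, kc_mul3, Fintype.sum_pow]
  refine Fintype.sum_equiv (vecLab e he R) _ _ ?_
  intro g
  rw [← e3_sum, exp_eq3 D e he]
  rfl

end Da

end Pool.Agent.Lib.MP_1a91b9_ntK
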