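import Pool.Agent.Lib.MP_1a91b9_ntK.D.Defs

/-!
# MP_1a91b9_nt (cubic twists), part D: exponents

Rules for the exponents of families: additivity, symmetry, the exponent on an unlinked set.
-/

set_option autoImplicit false

namespace Pool.Agent.Lib.MP_1a91b9_ntK.D

open Finset Pool.Agent.Lib.MP_1a91b9_ntH

noncomputable section

variable {ι : Type} [DecidableEq ι] {L : Type} [Fintype L] [DecidableEq L]

theorem ss_union_left (D : Dat3 ι) {S T : Finset ι} (h : Disjoint S T) (R : Finset ι) :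
    D.ss (S ∪ T) R = D.ss S R + D.ss T R :=
  sum_union h

theorem ss_union_right (D : Dat3 ι) {S T : Finset ι} (h : Disjoint S T) (R : Finset ι) :
    D.ss R (S ∪ T) = D.ss R S + D.ss R T := by
  unfold Dat3.ss
  rw [← sum_add_distrib]
  exact sum_congr rfl fun q _ => sum_union h

omit [DecidableEq ι] in
theorem ss_empty_left (D : Dat3 ι) (S : Finset ι) : D.ss ∅ S = 0 := sum_empty

omit [DecidableEq ι] in
theorem ss_empty_right (D : Dat3 ι) (S : Finset ι) : D.ss S ∅ = 0 := by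
  unfold Dat3.ss
  refine sum_eq_zero fun q _ => ?_
  exact sum_empty

omit [DecidableEq ι] in
theorem ss_symm (D : Dat3 ι) (hD : D.Sym) {S T : Finset ι} (h : Disjoint S T) :
    D.ss S T = D.ss T S := by
  unfold Dat3.ss
  rw [sum_comm (s := T) (t := S)]
  refine sum_congr rfl fun q hq => sum_congr rfl fun p hp => hD q p ?_
  rintro rfl
  exact (disjoint_left.1 h) hq hp

theorem ee_union (D : Dat3 ι) (Λ : LS3 L ι) (b d : L → Finset ι) (h : Disjoint (uni b) (uni d)) :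
    D.ee Λ (fun l => b l ∪ d l) = D.ee Λ b + D.ee Λ d +
      ∑ l, ∑ m, Λ.Phi l m * (D.ss (b l) (d m) + D.ss (d l) (b m)) := by
  have hdis : ∀ l m, Disjoint (b l) (d m) := fun l m =>
    disjoint_of_subset_left (sub_uni b l) (disjoint_of_subset_right (sub_uni d m) h)
  have h1 : ∑ l, ∑ q ∈ b l ∪ d l, D.lin Λ l q =
      ∑ l, ∑ q ∈ b l, D.lin Λ l q + ∑ l, ∑ q ∈ d l, D.lin Λ l q := by
    rw [← sum_add_distrib]
    exact sum_congr rfl fun l _ => sum_union (hdis l l)
  have h2 : ∑ l, ∑ m, Λ.Phi l m * D.ss (b l ∪ d l) (b m ∪ d m) =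
      ∑ l, ∑ m, Λ.Phi l m * D.ss (b l) (b m) + ∑ l, ∑ m, Λ.Phi l m * D.ss (d l) (d m) +
        ∑ l, ∑ m, Λ.Phi l m * (D.ss (b l) (d m) + D.ss (d l) (b m)) := by
    rw [← sum_add_distrib, ← sum_add_distrib]
    refine sum_congr rfl fun l _ => ?_
    rw [← sum_add_distrib, ← sum_add_distrib]
    refine sum_congr rfl fun m _ => ?_
    rw [ss_union_left D (hdis l l), ss_union_right D (hdis m m), ss_union_right D (hdis m m)]
    ring
  unfold Dat3.ee
  rw [h1, h2]
  ring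

omit [DecidableEq ι] in
theorem ee_unl (D : Dat3 ι) (hD : D.Sym) (Λ : LS3 L ι) (hΛ : Λ.OK) (U : Finset L)
    (hU : Λ.Unl U) (d : L → Finset ι) (hd : PD d) (h0 : ∀ l, l ∉ U → d l = ∅) :
    D.ee Λ d = ∑ l, ∑ q ∈ d l, D.lin Λ l q := by
  have h1 : ∑ l, ∑ m, Λ.Phi l m * D.ss (d l) (d m) +
      ∑ l, ∑ m, Λ.Phi l m * D.ss (d l) (d m) = 0 := by
    have h2 : ∑ l, ∑ m, Λ.Phi l m * D.ss (d l) (d m) =
        ∑ l, ∑ m, Λ.Phi m l * D.ss (d m) (d l) := sum_comm
    nth_rewrite 2 [h2]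
    rw [← sum_add_distrib]
    refine sum_eq_zero fun l _ => ?_
    rw [← sum_add_distrib]
    refine sum_eq_zero fun m _ => ?_
    by_cases hlm : l = m
    · rw [hlm, hΛ.diag]
      ring
    · rw [ss_symm D hD (hd m l (Ne.symm hlm)), ← add_mul]
      by_cases hl : l ∈ U
      · by_cases hm : m ∈ U
        · have h3 : Λ.Phi l m + Λ.Phi m l = 0 := hU l hl m hm
          rw [h3, zero_mul]
        · rw [h0 m hm, ss_empty_right, mul_zero]
      · rw [h0 l hl, ss_empty_left, mul_zero]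
  have h4 : ∀ x : ZMod 3, x + x = 0 → x = 0 := by decide
  unfold Dat3.ee
  rw [h4 _ h1, add_zero]

end

end Pool.Agent.Lib.MP_1a91b9_ntK.D
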