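import Pool.Agent.Lib.MP_1a91b9_ntK.D.Cls3
import Pool.Agent.Lib.MP_1a91b9_ntK.A.Forest

/-!
# MP_1a91b9_nt (cubic twists), part D: the Laplacian case, and the matrix of part A
-/

set_option autoImplicit false

namespace Pool.Agent.Lib.MP_1a91b9_ntK

open Finset

variable {ι : Type} [DecidableEq ι]

/-- The matrix of part D is the matrix of part A. -/
theorem Dat3.N_eq_NE (D : Dat3 ι) (e : ι → ZMod 3) (τ : ZMod 3) (R : Finset ι) :
    D.N e τ R = NE D.s (fun q => τ * D.a q) e R := by
  funext i j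
  rw [Dat3.N, NE]
  by_cases h : i = j
  · rw [if_pos h, if_pos h, mul_add, mul_sum]
    congr 1
    exact sum_congr rfl fun l _ => by ring
  · rw [if_neg h, if_neg h]

/-- If the kernel has three elements, it consists of the multiples of `e`. -/
theorem Dat3.ker_of_kc (D : Dat3 ι) (e : ι → ZMod 3) (he : ∀ i, e i * e i = 1) (R : Finset ι)
    (h : D.kc e 0 R = 3) (v : R → ZMod 3) (hv : (D.N e 0 R).mulVec v = 0) :
    ∃ c : ZMod 3, ∀ i : R, v i = c * e i := by
  have hR : Nonempty R := by
    by_contra hne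
    rw [not_nonempty_iff] at hne
    have h1 : D.kc e 0 R = 1 := by
      rw [Da.kc3_eq_one, Matrix.det_isEmpty]
      exact one_ne_zero
    omega
  have hz : ∀ c : ZMod 3, (D.N e 0 R).mulVec (fun j => c * e j) = 0 := fun c => by
    have h1 := Da.N_zero_mulVec D e he R
    have h2 : (fun j : R => c * e j) = c • fun j : R => e j := rfl
    rw [h2, Matrix.mulVec_smul, h1, smul_zero]
  let f : ZMod 3 → {v : R → ZMod 3 // (D.N e 0 R).mulVec v = 0} := fun c =>
    ⟨fun j => c * e j, hz c⟩
  have hf : Function.Injective f := by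
    intro c c' hc
    obtain ⟨i⟩ := hR
    have h1 : c * e i = c' * e i := congrFun (congrArg Subtype.val hc) i
    calc c = c * e i * e i := by rw [mul_assoc, he, mul_one]
      _ = c' := by rw [h1, mul_assoc, he, mul_one]
  have hb : Function.Bijective f := by
    rw [Fintype.bijective_iff_injective_and_card]
    refine ⟨hf, ?_⟩
    rw [ZMod.card]
    exact h.symm
  obtain ⟨c, hc⟩ := hb.2 ⟨v, hv⟩
  exact ⟨c, fun i => (congrFun (congrArg Subtype.val hc) i).symm⟩

theorem Dat3.ker_NE (D : Dat3 ι) (e : ι → ZMod 3) (he : ∀ i, e i * e i = 1) (R : Finset ι)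
    (h : D.kc e 0 R = 3) (v : R → ZMod 3) (hv : (NE D.s 0 e R).mulVec v = 0) :
    ∃ c : ZMod 3, ∀ i : R, v i = c * e i := by
  refine D.ker_of_kc e he R h v ?_
  rw [D.N_eq_NE]
  have h1 : (fun q => (0 : ZMod 3) * D.a q) = (0 : ι → ZMod 3) := by
    funext q
    rw [zero_mul]
    rfl
  rw [h1]
  exact hv

end Pool.Agent.Lib.MP_1a91b9_ntK
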