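import Pool.Agent.Lib.MP_1a91b9_ntK.D.Ex3

/-!
# MP_1a91b9_nt (cubic twists), part D: the label system and the number of main terms
-/

set_option autoImplicit false

namespace Pool.Agent.Lib.MP_1a91b9_ntK.Da

open Finset

noncomputable section

variable {k : ℕ} {ι : Type} [DecidableEq ι]

/-- The label system of the `k`-th moment twisted by `c`, with fixed labels `t` at the primes of
`T`. -/
def LSt (k : ℕ) (τ c : ZMod 3) (T : Finset ι) (t : ι → Lab3 k) : LS3 (Lab3 k) ι where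
  Phi := Phi3
  c := fun l => τ * Q3 l + c
  t := fun l p => -Q3 (l - t p)
  B := T
  m := 3 ^ k

theorem LSt_lk (τ c : ZMod 3) (T : Finset ι) (t : ι → Lab3 k) (l m : Lab3 k) :
    (LSt k τ c T t).lk l m = Q3 (l - m) := Phi3_add l m

theorem LSt_Unl (τ c : ZMod 3) (T : Finset ι) (t : ι → Lab3 k) (U : Finset (Lab3 k)) :
    (LSt k τ c T t).Unl U ↔ Unl3 U := by
  rw [LS3.Unl, Unl3]
  simp only [LSt_lk]

theorem LSt_OK {k : ℕ} (hk : 1 ≤ k) (τ c : ZMod 3) (T : Finset ι) (t : ι → Lab3 k) :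
    (LSt k τ c T t).OK where
  diag := Phi3_self
  two := by
    show 2 ≤ 3 ^ k
    calc 2 ≤ 3 ^ 1 := by norm_num
      _ ≤ 3 ^ k := Nat.pow_le_pow_right (by norm_num) hk
  k1 := fun U hU => K1 ((LSt_Unl τ c T t U).1 hU)
  k2 := fun U hU hc x hx => by
    have hU' := (LSt_Unl τ c T t U).1 hU
    have hc' : U.card = 3 ^ k := hc
    have hne : U.Nonempty := by
      rw [← card_pos, hc']; positivity
    obtain ⟨l0, hl0⟩ := hne
    by_contra hcon
    push Not at hcon
    refine hx (K2 hU' hc' (Q3 (l0 - x)) fun l hl => ?_)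
    have := hcon l hl l0 hl0
    rw [LSt_lk, LSt_lk] at this
    exact this

open Classical in
/-- The maximal unlinked sets on which the character vanishes. -/
def Gd (k : ℕ) (τ c : ZMod 3) : Finset (Finset (Lab3 k)) :=
  univ.filter fun U => Unl3 U ∧ U.card = 3 ^ k ∧ ∀ l ∈ U, τ * Q3 l + c = 0

theorem mem_Gd {τ c : ZMod 3} {U : Finset (Lab3 k)} :
    U ∈ Gd k τ c ↔ Unl3 U ∧ U.card = 3 ^ k ∧ ∀ l ∈ U, τ * Q3 l + c = 0 := by
  classical
  rw [Gd, mem_filter]
  exact ⟨fun h => h.2, fun h => ⟨mem_univ _, h⟩⟩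

theorem nonempty_of_card {U : Finset (Lab3 k)} (h : U.card = 3 ^ k) : U.Nonempty := by
  rw [← card_pos, h]; positivity

/-- In a maximal unlinked set containing no `0` the quadratic form is not constant. -/
theorem zero_mem_of_const {U : Finset (Lab3 k)} (hU : Unl3 U) (hc : U.card = 3 ^ k) (c : ZMod 3)
    (h : ∀ l ∈ U, Q3 l = c) : 0 ∈ U :=
  K2 hU hc c fun l hl => by rw [sub_zero]; exact h l hl

theorem Gd_of_ne {τ : ZMod 3} (hτ : τ ≠ 0) : Gd k τ 0 = Lgs3 k := by
  ext U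
  rw [mem_Gd, mem_Lgs3]
  constructor
  · rintro ⟨h1, h2, h3⟩
    refine ⟨h1, h2, zero_mem_of_const h1 h2 0 fun l hl => ?_⟩
    have := h3 l hl
    rw [add_zero] at this
    exact (mul_eq_zero.1 this).resolve_left hτ
  · rintro ⟨h1, h2, h3⟩
    exact ⟨h1, h2, fun l hl => by rw [h1.Q h3 hl, mul_zero, add_zero]⟩

theorem Gd_c {τ c : ZMod 3} (hc : c ≠ 0) : Gd k τ c = ∅ := by
  rw [eq_empty_iff_forall_notMem]
  intro U hU
  rw [mem_Gd] at hU
  obtain ⟨h1, h2, h3⟩ := hU
  by_cases hτ : τ = 0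
  · obtain ⟨l, hl⟩ := nonempty_of_card h2
    have := h3 l hl
    rw [hτ, zero_mul, zero_add] at this
    exact hc this
  · have h4 : ∀ l ∈ U, Q3 l = -τ⁻¹ * c := fun l hl => by
      have h5 := h3 l hl
      have h6 : τ⁻¹ * (τ * Q3 l + c) = 0 := by rw [h5, mul_zero]
      rw [mul_add, ← mul_assoc, inv_mul_cancel₀ hτ, one_mul] at h6
      linear_combination h6
    have h0 := zero_mem_of_const h1 h2 _ h4
    have := h3 0 h0
    rw [Q3_zero, mul_zero, zero_add] at this
    exact hc this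

/-- The number of maximal unlinked sets. -/
theorem card_Gd_zero (k : ℕ) : (Gd k 0 0).card = 3 ^ k * Nk3 k := by
  classical
  have h1 : ∑ U ∈ Gd k 0 0, ∑ l ∈ U, 1 = ∑ l : Lab3 k, ∑ U ∈ (Gd k 0 0).filter (fun U => l ∈ U), 1 := by
    refine sum_comm' ?_
    intro U l
    rw [mem_filter]
    exact ⟨fun h => ⟨h, mem_univ _⟩, fun h => h.1⟩
  have h2 : ∀ U ∈ Gd k 0 0, ∑ l ∈ U, 1 = 3 ^ k := fun U hU => by
    rw [sum_const, smul_eq_mul, mul_one]
    exact (mem_Gd.1 hU).2.1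
  have h3 : ∀ l : Lab3 k, ∑ U ∈ (Gd k 0 0).filter (fun U => l ∈ U), 1 = Nk3 k := fun l => by
    rw [sum_const, smul_eq_mul, mul_one, ← card_Lgs3]
    refine card_nbij' (fun U => sh3 l U) (fun U => sh3 (-l) U) ?_ ?_ ?_ ?_
    · intro U hU
      have hU' := mem_filter.1 hU
      obtain ⟨a, b, _⟩ := mem_Gd.1 hU'.1
      show sh3 l U ∈ Lgs3 k
      rw [mem_Lgs3]
      exact ⟨Unl_sh3 a, by rw [card_sh3, b], by rw [mem_sh3, zero_add]; exact hU'.2⟩
    · intro U hU
      have hU' : Mx3 U := mem_Lgs3.1 hU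
      show sh3 (-l) U ∈ (Gd k 0 0).filter (fun U => l ∈ U)
      rw [mem_filter, mem_Gd]
      exact ⟨⟨Unl_sh3 hU'.unl, by rw [card_sh3, hU'.card], fun m _ => by rw [zero_mul, zero_add]⟩,
        by rw [mem_sh3, add_neg_cancel]; exact hU'.zero⟩
    · intro U _
      ext m
      show m ∈ sh3 (-l) (sh3 l U) ↔ m ∈ U
      rw [mem_sh3, mem_sh3, neg_add_cancel_right]
    · intro U _
      ext m
      show m ∈ sh3 l (sh3 (-l) U) ↔ m ∈ U
      rw [mem_sh3, mem_sh3, add_neg_cancel_right]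
  rw [sum_congr rfl h2, sum_const, smul_eq_mul] at h1
  simp only [h3] at h1
  rw [sum_const, card_univ, card_Lab3, smul_eq_mul, ← three_pow_sq, sq] at h1
  have hp : 0 < 3 ^ k := by positivity
  have h4 : 3 ^ k * (Gd k 0 0).card = 3 ^ k * (3 ^ k * Nk3 k) := by
    rw [mul_comm, h1]; ring
  exact Nat.eq_of_mul_eq_mul_left hp h4

/-- The size of the main term. -/
def Mk3 (k : ℕ) (τ : ZMod 3) : ℕ := if τ = 0 then 3 ^ k * Nk3 k else Nk3 k

theorem card_Gd (k : ℕ) (τ c : ZMod 3) : (Gd k τ c).card = if c = 0 then Mk3 k τ else 0 := by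
  split_ifs with hc
  · subst hc
    rw [Mk3]
    split_ifs with hτ
    · subst hτ
      exact card_Gd_zero k
    · rw [Gd_of_ne hτ, card_Lgs3]
  · rw [Gd_c hc, card_empty]

theorem mem_Ms_LSt {τ c : ZMod 3} {T : Finset ι} {t : ι → Lab3 k} {U : Finset (Lab3 k)} :
    U ∈ (LSt k τ c T t).Ms ↔ U ∈ Gd k τ c ∧ ∀ p ∈ T, t p ∈ U := by
  rw [LS3.mem_Ms, LS3.mem_Us, LSt_Unl, mem_Gd, LS3.Lin0]
  constructor
  · rintro ⟨⟨h1, h2⟩, h3⟩
    refine ⟨⟨h1, h2, fun l hl => (h3 l hl).1⟩, fun p hp => ?_⟩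
    exact K2 h1 h2 0 fun l hl => neg_eq_zero.1 ((h3 l hl).2 p hp)
  · rintro ⟨⟨h1, h2, h3⟩, h4⟩
    exact ⟨⟨h1, h2⟩, fun l hl => ⟨h3 l hl, fun p hp => neg_eq_zero.2 (h1 l hl _ (h4 p hp))⟩⟩

/-- Extension of a labelling of `T` by `0`. -/
def tE (T : Finset ι) (t : T → Lab3 k) (p : ι) : Lab3 k := if h : p ∈ T then t ⟨p, h⟩ else 0

theorem tE_coe (T : Finset ι) (t : T → Lab3 k) (p : T) : tE T t p = t p := by
  rw [tE, dif_pos p.2]

/-- The constant factor of the main term vanishes. -/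
theorem EE_of_mem (D : Dat3 ι) (hs : D.Sym) {τ : ZMod 3} {T : Finset ι} {t : T → Lab3 k}
    {U : Finset (Lab3 k)} (hU : U ∈ Gd k τ 0) (ht : ∀ p, t p ∈ U) :
    EE D (eT T) τ T t = 0 := by
  obtain ⟨h1, h2, h3⟩ := mem_Gd.1 hU
  have ha : ∑ j : T, eT T j * (τ * D.a j) * Q3 (t j) = 0 := by
    refine sum_eq_zero fun j _ => ?_
    have := h3 _ (ht j)
    rw [add_zero] at this
    linear_combination eT T j * D.a j * this
  have hb : ∑ i : T, ∑ j : T, eT T i * eT T j * D.s i j * Phi3 (t i) (t j) = 0 := by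
    have hsym : ∑ i : T, ∑ j : T, eT T i * eT T j * D.s i j * Phi3 (t i) (t j) =
        ∑ i : T, ∑ j : T, eT T i * eT T j * D.s i j * Phi3 (t j) (t i) := by
      rw [sum_comm]
      refine sum_congr rfl fun i _ => sum_congr rfl fun j _ => ?_
      by_cases hij : i = j
      · subst hij
        rfl
      · rw [hs j i fun h => hij (Subtype.ext h.symm)]
        ring
    have h4 : ∑ i : T, ∑ j : T, eT T i * eT T j * D.s i j * Phi3 (t i) (t j) +
        ∑ i : T, ∑ j : T, eT T i * eT T j * D.s i j * Phi3 (t j) (t i) = 0 := by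
      rw [← sum_add_distrib]
      refine sum_eq_zero fun i _ => ?_
      rw [← sum_add_distrib]
      refine sum_eq_zero fun j _ => ?_
      have h5 : Phi3 (t i) (t j) + Phi3 (t j) (t i) = 0 := by
        rw [Phi3_add]
        exact h1 _ (ht i) _ (ht j)
      linear_combination eT T i * eT T j * D.s i j * h5
    rw [← hsym] at h4
    have hd : ∀ x : ZMod 3, x + x = 0 → x = 0 := by decide
    exact hd _ h4
  rw [EE, ha, hb, add_zero]

/-- The sum of the main terms over the labellings of `T`. -/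
theorem sum_Ms (D : Dat3 ι) (hs : D.Sym) (τ c : ZMod 3) (T : Finset ι) :
    ∑ t : T → Lab3 k, e3 (EE D (eT T) τ T t) * ((LSt k τ c T (tE T t)).Ms.card : ℂ) =
      (3 ^ k) ^ T.card * (Gd k τ c).card := by
  classical
  by_cases hc : c = 0
  · subst hc
    have h1 : ∀ t : T → Lab3 k, e3 (EE D (eT T) τ T t) * ((LSt k τ 0 T (tE T t)).Ms.card : ℂ) =
        ∑ U ∈ (Gd k τ 0).filter (fun U => ∀ p, t p ∈ U), 1 := by
      intro t
      have e : (LSt k τ 0 T (tE T t)).Ms = (Gd k τ 0).filter (fun U => ∀ p, t p ∈ U) := by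
        ext U
        rw [mem_Ms_LSt, mem_filter]
        refine and_congr_right fun _ => ?_
        constructor
        · intro h p
          have := h p p.2
          rwa [tE_coe] at this
        · intro h p hp
          have := h ⟨p, hp⟩
          rwa [← tE_coe T t ⟨p, hp⟩] at this
      rw [e, sum_const, nsmul_eq_mul, mul_one]
      by_cases hne : ((Gd k τ 0).filter (fun U => ∀ p, t p ∈ U)).Nonempty
      · obtain ⟨U, hU⟩ := hne
        rw [mem_filter] at hU
        rw [EE_of_mem D hs hU.1 hU.2, e3_zero, one_mul]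
      · rw [not_nonempty_iff_eq_empty] at hne
        rw [hne, card_empty, Nat.cast_zero, mul_zero]
    simp only [h1]
    have h2 : ∑ t : T → Lab3 k, ∑ U ∈ (Gd k τ 0).filter (fun U => ∀ p, t p ∈ U), (1 : ℂ) =
        ∑ U ∈ Gd k τ 0, ∑ t ∈ univ.filter (fun t : T → Lab3 k => ∀ p, t p ∈ U), 1 := by
      refine sum_comm' ?_
      intro t U
      rw [mem_filter, mem_filter]
      tauto
    rw [h2]
    have h3 : ∀ U ∈ Gd k τ 0, ∑ t ∈ univ.filter (fun t : T → Lab3 k => ∀ p, t p ∈ U), (1 : ℂ) =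
        (3 ^ k) ^ T.card := by
      intro U hU
      rw [sum_const, nsmul_eq_mul, mul_one]
      have e : univ.filter (fun t : T → Lab3 k => ∀ p, t p ∈ U) =
          Fintype.piFinset fun _ : T => U := by
        ext t
        rw [mem_filter, Fintype.mem_piFinset]
        exact ⟨fun h => h.2, fun h => ⟨mem_univ _, h⟩⟩
      rw [e, Fintype.card_piFinset, prod_const, card_univ, Fintype.card_coe, (mem_Gd.1 hU).2.1]
      push_cast
      rfl
    rw [sum_congr rfl h3, sum_const, nsmul_eq_mul, mul_comm]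
  · have h1 : ∀ t : T → Lab3 k, e3 (EE D (eT T) τ T t) * ((LSt k τ c T (tE T t)).Ms.card : ℂ) =
        0 := by
      intro t
      have e : (LSt k τ c T (tE T t)).Ms = ∅ := by
        rw [eq_empty_iff_forall_notMem]
        intro U hU
        rw [mem_Ms_LSt, Gd_c hc] at hU
        exact absurd hU.1 (notMem_empty U)
      rw [e, card_empty, Nat.cast_zero, mul_zero]
    simp only [h1, sum_const_zero]
    rw [Gd_c hc, card_empty, Nat.cast_zero, mul_zero]

end

end Pool.Agent.Lib.MP_1a91b9_ntK.Da
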