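import Pool.Agent.Lib.MP_1a91b9_ntK.D.E3

/-!
# MP_1a91b9_nt (cubic twists), part D: the labels of the `k`-th moment over `ZMod 3`

Labels `(V, W)` in `F3^k × F3^k`, quadratic form `V · W`; unlinked sets, maximal unlinked sets and
the number of the maximal totally singular subspaces.
-/

set_option autoImplicit false

namespace Pool.Agent.Lib.MP_1a91b9_ntK.Da

open Finset

/-- The labels. -/
abbrev Lab3 (k : ℕ) : Type := (Fin k → ZMod 3) × (Fin k → ZMod 3)

variable {k : ℕ}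

/-- The quadratic form. -/
def Q3 (l : Lab3 k) : ZMod 3 := l.1 ⬝ᵥ l.2

/-- Its polar form. -/
def B3 (l m : Lab3 k) : ZMod 3 := l.1 ⬝ᵥ m.2 + m.1 ⬝ᵥ l.2

theorem Q3_add (l m : Lab3 k) : Q3 (l + m) = Q3 l + Q3 m + B3 l m := by
  simp only [Q3, B3, Prod.snd_add, Prod.fst_add, add_dotProduct, dotProduct_add]
  ring

theorem Q3_neg (l : Lab3 k) : Q3 (-l) = Q3 l := by
  simp only [Q3, Prod.snd_neg, Prod.fst_neg, neg_dotProduct, dotProduct_neg, neg_neg]

theorem Q3_zero : Q3 (0 : Lab3 k) = 0 := by simp [Q3]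

theorem Q3_smul (t : ZMod 3) (l : Lab3 k) : Q3 (t • l) = t * t * Q3 l := by
  simp only [Q3, Prod.smul_snd, Prod.smul_fst, smul_dotProduct, dotProduct_smul, smul_eq_mul]
  ring

theorem B3_comm (l m : Lab3 k) : B3 l m = B3 m l := by simp only [B3]; ring

theorem B3_add (l m n : Lab3 k) : B3 l (m + n) = B3 l m + B3 l n := by
  simp only [B3, Prod.snd_add, Prod.fst_add, add_dotProduct, dotProduct_add]
  ring

theorem B3_add' (l m n : Lab3 k) : B3 (l + m) n = B3 l n + B3 m n := by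
  rw [B3_comm, B3_add, B3_comm n l, B3_comm n m]

theorem B3_neg (l m : Lab3 k) : B3 l (-m) = -B3 l m := by
  simp only [B3, Prod.snd_neg, Prod.fst_neg, neg_dotProduct, dotProduct_neg]
  ring

theorem B3_sub (l m n : Lab3 k) : B3 l (m - n) = B3 l m - B3 l n := by
  rw [sub_eq_add_neg, B3_add, B3_neg, sub_eq_add_neg]

theorem B3_smul (t : ZMod 3) (l m : Lab3 k) : B3 (t • l) m = t * B3 l m := by
  simp only [B3, Prod.smul_snd, Prod.smul_fst, smul_dotProduct, dotProduct_smul, smul_eq_mul]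
  ring

theorem Q3_sub (l m : Lab3 k) : Q3 (l - m) = Q3 l + Q3 m - B3 l m := by
  rw [sub_eq_add_neg, Q3_add, Q3_neg, B3_neg, ← sub_eq_add_neg]

theorem B3_self (l : Lab3 k) : B3 l l = 2 * Q3 l := by
  simp only [B3, Q3]
  ring

theorem card_V3 (k : ℕ) : Fintype.card (Fin k → ZMod 3) = 3 ^ k := by
  rw [Fintype.card_fun, Fintype.card_fin, ZMod.card]

theorem card_Lab3 (k : ℕ) : Fintype.card (Lab3 k) = 9 ^ k := by
  rw [Fintype.card_prod, card_V3, ← mul_pow]; norm_num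

theorem exists_dot3 {x : Fin k → ZMod 3} (hx : x ≠ 0) : ∃ y, x ⬝ᵥ y ≠ 0 := by
  obtain ⟨i, hi⟩ := Function.ne_iff.1 hx
  refine ⟨Pi.single i 1, ?_⟩
  rw [dotProduct_single, mul_one]
  exact hi

theorem exists_B3 {w : Lab3 k} (hw : w ≠ 0) : ∃ l, B3 l w ≠ 0 := by
  by_cases h1 : w.1 = 0
  · have h2 : w.2 ≠ 0 := fun h2 => hw (Prod.ext h1 h2)
    obtain ⟨y, hy⟩ := exists_dot3 h2
    refine ⟨(y, 0), ?_⟩
    rw [B3]
    simp only [h1, dotProduct_zero, add_zero]
    rwa [dotProduct_comm]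
  · obtain ⟨y, hy⟩ := exists_dot3 h1
    refine ⟨(0, y), ?_⟩
    rw [B3]
    simp only [zero_dotProduct, zero_add]
    exact hy

theorem sum_B3 (w : Lab3 k) : ∑ l, e3 (B3 l w) = if w = 0 then (9 ^ k : ℂ) else 0 := by
  split_ifs with h
  · subst h
    have : ∀ l : Lab3 k, e3 (B3 l 0) = 1 := fun l => by
      simp [B3, e3_zero]
    simp only [this, sum_const, card_univ, card_Lab3, nsmul_eq_mul, mul_one]
    push_cast
    rfl
  · obtain ⟨t, ht⟩ := exists_B3 h
    exact sum_e3_eq_zero (fun l => B3 l w) t _ ht fun l => by rw [B3_add']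

theorem sum_dot3 (z : Fin k → ZMod 3) :
    ∑ v : Fin k → ZMod 3, e3 (v ⬝ᵥ z) = if z = 0 then (3 ^ k : ℂ) else 0 := by
  split_ifs with h
  · subst h
    simp only [dotProduct_zero, e3_zero, sum_const, card_univ, card_V3, nsmul_eq_mul, mul_one]
    push_cast
    rfl
  · obtain ⟨t, ht⟩ := exists_dot3 h
    refine sum_e3_eq_zero (fun v => v ⬝ᵥ z) t (z ⬝ᵥ t) ht fun v => ?_
    rw [add_dotProduct, dotProduct_comm t z]

/-- Parseval for the character sums of a set of labels. -/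
theorem parseval3 (W : Finset (Lab3 k)) :
    ∑ l, Complex.normSq (∑ w ∈ W, e3 (B3 l w)) = (W.card : ℝ) * 9 ^ k := by
  have h1 : ∀ l : Lab3 k, ((Complex.normSq (∑ w ∈ W, e3 (B3 l w)) : ℝ) : ℂ) =
      ∑ w ∈ W, ∑ w' ∈ W, e3 (B3 l (w - w')) := fun l => by
    rw [← Complex.mul_conj, map_sum, sum_mul_sum]
    refine sum_congr rfl fun w _ => sum_congr rfl fun w' _ => ?_
    rw [← e3_neg, ← e3_add, B3_sub, sub_eq_add_neg]
  have h2 : ∑ l, ((Complex.normSq (∑ w ∈ W, e3 (B3 l w)) : ℝ) : ℂ) = (W.card : ℂ) * 9 ^ k := by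
    simp only [h1]
    rw [sum_comm]
    have h3 : ∀ w ∈ W, ∑ l, ∑ w' ∈ W, e3 (B3 l (w - w')) = (9 ^ k : ℂ) := fun w hw => by
      rw [sum_comm]
      simp only [sum_B3, sub_eq_zero]
      rw [sum_ite_eq, if_pos hw]
    rw [sum_congr rfl h3, sum_const, nsmul_eq_mul]
  exact_mod_cast h2

/-- Unlinked sets of labels. -/
def Unl3 (U : Finset (Lab3 k)) : Prop := ∀ l ∈ U, ∀ m ∈ U, Q3 (l - m) = 0

/-- Shift of a set of labels. -/
def sh3 (l0 : Lab3 k) (U : Finset (Lab3 k)) : Finset (Lab3 k) := U.image (· - l0)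

theorem card_sh3 (l0 : Lab3 k) (U : Finset (Lab3 k)) : (sh3 l0 U).card = U.card :=
  card_image_of_injective _ (sub_left_injective)

theorem mem_sh3 {l0 l : Lab3 k} {U : Finset (Lab3 k)} : l ∈ sh3 l0 U ↔ l + l0 ∈ U := by
  rw [sh3, mem_image]
  constructor
  · rintro ⟨u, hu, rfl⟩
    rwa [sub_add_cancel]
  · intro h
    exact ⟨l + l0, h, add_sub_cancel_right _ _⟩

theorem Unl_sh3 {l0 : Lab3 k} {U : Finset (Lab3 k)} (h : Unl3 U) : Unl3 (sh3 l0 U) := by
  intro l hl m hm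
  rw [mem_sh3] at hl hm
  have := h _ hl _ hm
  rwa [add_sub_add_right_eq_sub] at this

theorem Unl3.Q {U : Finset (Lab3 k)} (h : Unl3 U) (h0 : 0 ∈ U) {l : Lab3 k} (hl : l ∈ U) :
    Q3 l = 0 := by
  have := h _ hl _ h0
  rwa [sub_zero] at this

theorem Unl3.B {U : Finset (Lab3 k)} (h : Unl3 U) (h0 : 0 ∈ U) {l m : Lab3 k} (hl : l ∈ U)
    (hm : m ∈ U) : B3 l m = 0 := by
  have h1 := h _ hl _ hm
  rw [Q3_sub, h.Q h0 hl, h.Q h0 hm, add_zero, zero_sub, neg_eq_zero] at h1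
  exact h1

theorem sum_B3_mem {W : Finset (Lab3 k)} {l : Lab3 k} (hl : ∀ w ∈ W, B3 l w = 0) :
    ∑ w ∈ W, e3 (B3 l w) = W.card := by
  rw [sum_congr rfl fun w hw => by rw [hl w hw, e3_zero]]
  simp

theorem card_sq_le3 {W : Finset (Lab3 k)} (h : Unl3 W) (h0 : 0 ∈ W) : W.card ^ 2 ≤ 9 ^ k := by
  have hp := parseval3 W
  have h1 : ∑ l ∈ W, Complex.normSq (∑ w ∈ W, e3 (B3 l w)) ≤
      ∑ l, Complex.normSq (∑ w ∈ W, e3 (B3 l w)) :=
    sum_le_sum_of_subset_of_nonneg (subset_univ _) fun l _ _ => Complex.normSq_nonneg _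
  rw [hp, sum_congr rfl fun l hl => by
    rw [sum_B3_mem fun w hw => h.B h0 hl hw, Complex.normSq_natCast], sum_const,
    nsmul_eq_mul] at h1
  have hpos : (0 : ℝ) < W.card := by exact_mod_cast card_pos.2 ⟨0, h0⟩
  have h2 := le_of_mul_le_mul_left h1 hpos
  rw [← sq] at h2
  exact_mod_cast h2

theorem three_pow_sq (k : ℕ) : (3 ^ k) ^ 2 = 9 ^ k := by
  rw [← pow_mul, mul_comm, pow_mul]; norm_num

/-- (K1) -/
theorem K1 {U : Finset (Lab3 k)} (h : Unl3 U) : U.card ≤ 3 ^ k := by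
  rcases U.eq_empty_or_nonempty with rfl | ⟨l0, hl0⟩
  · simp
  · have h0 : 0 ∈ sh3 l0 U := by rw [mem_sh3, zero_add]; exact hl0
    have h1 := card_sq_le3 (Unl_sh3 (l0 := l0) h) h0
    rw [card_sh3, ← three_pow_sq] at h1
    exact (Nat.pow_le_pow_iff_left two_ne_zero).1 h1

/-- A totally singular set of maximal size, containing `0`. -/
structure Mx3 (W : Finset (Lab3 k)) : Prop where
  unl : Unl3 W
  card : W.card = 3 ^ k
  zero : 0 ∈ W

theorem Mx3.sum_eq_zero {W : Finset (Lab3 k)} (h : Mx3 W) {l : Lab3 k} (hl : l ∉ W) :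
    ∑ w ∈ W, e3 (B3 l w) = 0 := by
  have hp := parseval3 W
  rw [← sum_add_sum_compl W,
    sum_congr rfl fun l hl => by
      rw [sum_B3_mem fun w hw => h.unl.B h.zero hl hw, Complex.normSq_natCast], sum_const,
    nsmul_eq_mul, h.card] at hp
  have e : ((3 ^ k : ℕ) : ℝ) * ((3 ^ k : ℕ) : ℝ) = 9 ^ k := by
    rw [← sq]; exact_mod_cast three_pow_sq k
  rw [e] at hp
  have hz : ∑ l ∈ Wᶜ, Complex.normSq (∑ w ∈ W, e3 (B3 l w)) = 0 := by linarith
  have := (sum_eq_zero_iff_of_nonneg fun l _ => Complex.normSq_nonneg _).1 hz l (mem_compl.2 hl)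
  exact Complex.normSq_eq_zero.1 this

theorem Mx3.mem_iff {W : Finset (Lab3 k)} (h : Mx3 W) {l : Lab3 k} :
    l ∈ W ↔ ∀ w ∈ W, B3 l w = 0 := by
  constructor
  · intro hl w hw
    exact h.unl.B h.zero hl hw
  · intro hl
    by_contra hn
    have h1 := h.sum_eq_zero hn
    rw [sum_B3_mem hl, h.card] at h1
    have : ((3 ^ k : ℕ) : ℂ) ≠ 0 := by exact_mod_cast (by positivity : (3 : ℕ) ^ k ≠ 0)
    exact this h1

theorem Mx3.add_mem {W : Finset (Lab3 k)} (h : Mx3 W) {l m : Lab3 k} (hl : l ∈ W) (hm : m ∈ W) :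
    l + m ∈ W := by
  rw [h.mem_iff]
  intro w hw
  rw [B3_add', h.unl.B h.zero hl hw, h.unl.B h.zero hm hw, add_zero]

theorem Mx3.smul_mem {W : Finset (Lab3 k)} (h : Mx3 W) (t : ZMod 3) {l : Lab3 k} (hl : l ∈ W) :
    t • l ∈ W := by
  rw [h.mem_iff]
  intro w hw
  rw [B3_smul, h.unl.B h.zero hl hw, mul_zero]

/-- (K2): the linking function with a label outside a maximal unlinked set is not constant. -/
theorem K2 {U : Finset (Lab3 k)} (h : Unl3 U) (hc : U.card = 3 ^ k) {x : Lab3 k} (c : ZMod 3)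
    (hx : ∀ l ∈ U, Q3 (l - x) = c) : x ∈ U := by
  have hne : U.Nonempty := by
    rw [← card_pos, hc]; positivity
  obtain ⟨l0, hl0⟩ := hne
  have hW : Mx3 (sh3 l0 U) :=
    ⟨Unl_sh3 h, by rw [card_sh3, hc], by rw [mem_sh3, zero_add]; exact hl0⟩
  have h1 : x - l0 ∈ sh3 l0 U := by
    rw [hW.mem_iff]
    intro w hw
    have h2 := hx _ hl0
    have h3 := hx _ (mem_sh3.1 hw)
    have e : w + l0 - x = w - (x - l0) := by abel
    have e' : l0 - x = -(x - l0) := by abel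
    rw [e', Q3_neg] at h2
    rw [e, Q3_sub, h2, hW.unl.Q hW.zero hw, zero_add] at h3
    have h4 : B3 w (x - l0) = 0 := by
      have := sub_eq_self.1 h3
      exact this
    rw [B3_comm, h4]
  rw [mem_sh3, sub_add_cancel] at h1
  exact h1

/-! ### The number of maximal totally singular subspaces -/

/-- A totally singular subspace with `3 ^ j` elements. -/
structure Iso3 (j : ℕ) (X : Finset (Lab3 k)) : Prop where
  zero : 0 ∈ X
  add : ∀ x ∈ X, ∀ y ∈ X, x + y ∈ X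
  smul : ∀ (t : ZMod 3), ∀ x ∈ X, t • x ∈ X
  sing : ∀ x ∈ X, Q3 x = 0
  card : X.card = 3 ^ j

theorem Iso3.neg_mem {j : ℕ} {X : Finset (Lab3 k)} (h : Iso3 j X) {x : Lab3 k} (hx : x ∈ X) :
    -x ∈ X := by
  have := h.smul (-1) x hx
  rwa [neg_one_smul] at this

theorem Iso3.B {j : ℕ} {X : Finset (Lab3 k)} (h : Iso3 j X) {x y : Lab3 k} (hx : x ∈ X)
    (hy : y ∈ X) : B3 x y = 0 := by
  have h1 := h.sing _ (h.add x hx y hy)
  rw [Q3_add, h.sing x hx, h.sing y hy, add_zero, zero_add] at h1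
  exact h1

open Classical in
/-- The maximal totally singular subspaces. -/
noncomputable def Lgs3 (k : ℕ) : Finset (Finset (Lab3 k)) := univ.filter fun W => Mx3 W

theorem mem_Lgs3 {W : Finset (Lab3 k)} : W ∈ Lgs3 k ↔ Mx3 W := by
  classical
  rw [Lgs3, mem_filter]
  exact ⟨fun h => h.2, fun h => ⟨mem_univ _, h⟩⟩

theorem Iso3.of_Lgs {W : Finset (Lab3 k)} (h : W ∈ Lgs3 k) : Iso3 k W := by
  rw [mem_Lgs3] at h
  exact ⟨h.zero, fun x hx y hy => h.add_mem hx hy, fun t x hx => h.smul_mem t hx,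
    fun x hx => h.unl.Q h.zero hx, h.card⟩

theorem Iso3.to_Lgs {W : Finset (Lab3 k)} (h : Iso3 k W) : W ∈ Lgs3 k := by
  rw [mem_Lgs3]
  refine ⟨?_, h.card, h.zero⟩
  intro l hl m hm
  rw [sub_eq_add_neg]
  exact h.sing _ (h.add l hl _ (h.neg_mem hm))

open Classical in
/-- The orthogonal complement. -/
noncomputable def perp3 (X : Finset (Lab3 k)) : Finset (Lab3 k) :=
  univ.filter fun l => ∀ x ∈ X, B3 l x = 0

theorem mem_perp3 {X : Finset (Lab3 k)} {l : Lab3 k} : l ∈ perp3 X ↔ ∀ x ∈ X, B3 l x = 0 := by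
  classical
  rw [perp3, mem_filter]
  exact ⟨fun h => h.2, fun h => ⟨mem_univ _, h⟩⟩

theorem Iso3.sum_char {j : ℕ} {X : Finset (Lab3 k)} (h : Iso3 j X) (t : ZMod 3) (ht : t ≠ 0)
    (l : Lab3 k) : ∑ x ∈ X, e3 (t * B3 l x) = if l ∈ perp3 X then (3 ^ j : ℂ) else 0 := by
  split_ifs with hl
  · rw [mem_perp3] at hl
    rw [sum_congr rfl fun w hw => by rw [hl w hw, mul_zero, e3_zero]]
    simp [h.card]
  · rw [mem_perp3] at hl
    push Not at hl
    obtain ⟨s, hs, hls⟩ := hl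
    have h1 : ∑ x ∈ X, e3 (t * B3 l x) = ∑ x ∈ X, e3 (t * B3 l (x + s)) := by
      refine (sum_nbij' (fun x => x + s) (fun x => x - s) ?_ ?_ ?_ ?_ ?_).symm
      · intro x hx; exact h.add x hx s hs
      · intro x hx
        show x - s ∈ X
        rw [sub_eq_add_neg]
        exact h.add x hx _ (h.neg_mem hs)
      · intro x _; exact add_sub_cancel_right x s
      · intro x _; exact sub_add_cancel x s
      · intro x _; rfl
    have h2 : ∑ x ∈ X, e3 (t * B3 l (x + s)) = e3 (t * B3 l s) * ∑ x ∈ X, e3 (t * B3 l x) := by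
      rw [mul_sum]
      refine sum_congr rfl fun x _ => ?_
      rw [B3_add, mul_add, e3_add, mul_comm]
    have h3 : (1 - e3 (t * B3 l s)) * ∑ x ∈ X, e3 (t * B3 l x) = 0 := by
      rw [sub_mul, one_mul, ← h2, ← h1, sub_self]
    rcases mul_eq_zero.1 h3 with h4 | h4
    · exact absurd (e3_eq_one (sub_eq_zero.1 h4).symm) (mul_ne_zero ht hls)
    · exact h4

theorem sum_Q3 (k : ℕ) (t : ZMod 3) (ht : t ≠ 0) : ∑ l : Lab3 k, e3 (t * Q3 l) = 3 ^ k := by
  rw [Fintype.sum_prod_type_right]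
  have h1 : ∀ y : Fin k → ZMod 3, ∑ x : Fin k → ZMod 3, e3 (t * Q3 ((x, y) : Lab3 k)) =
      if y = 0 then (3 ^ k : ℂ) else 0 := fun y => by
    have h2 : ∀ x : Fin k → ZMod 3, t * Q3 ((x, y) : Lab3 k) = x ⬝ᵥ (t • y) := fun x => by
      rw [Q3, dotProduct_smul, smul_eq_mul]
    simp only [h2, sum_dot3]
    have h3 : t • y = 0 ↔ y = 0 := by
      constructor
      · intro h
        have := congrArg (fun z => t⁻¹ • z) h
        simp only [smul_smul, inv_mul_cancel₀ ht, one_smul, smul_zero] at this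
        exact this
      · rintro rfl
        exact smul_zero _
    rw [if_congr h3 rfl rfl]
  simp only [h1, sum_ite_eq', mem_univ, if_true]

theorem Iso3.card_perp {j : ℕ} {X : Finset (Lab3 k)} (h : Iso3 j X) :
    (3 ^ j : ℂ) * (perp3 X).card = 9 ^ k := by
  have h1 : ∑ l, ∑ x ∈ X, e3 (1 * B3 l x) = (9 ^ k : ℂ) := by
    rw [sum_comm]
    simp only [one_mul, sum_B3]
    rw [sum_ite_eq', if_pos h.zero]
  simp only [h.sum_char 1 one_ne_zero] at h1
  rw [← sum_filter, sum_const, nsmul_eq_mul] at h1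
  have h2 : univ.filter (fun l => l ∈ perp3 X) = perp3 X := by ext l; simp
  rw [h2] at h1
  linear_combination h1

theorem Iso3.sum_perp {j : ℕ} {X : Finset (Lab3 k)} (h : Iso3 j X) (t : ZMod 3) (ht : t ≠ 0) :
    ∑ l ∈ perp3 X, e3 (t * Q3 l) = 3 ^ k := by
  have h1 : ∑ l, ∑ x ∈ X, e3 (t * Q3 l) * e3 (t * B3 l x) = (3 ^ j : ℂ) * 3 ^ k := by
    rw [sum_comm]
    have h2 : ∀ x ∈ X, ∑ l, e3 (t * Q3 l) * e3 (t * B3 l x) = (3 ^ k : ℂ) := by
      intro x hx
      rw [← sum_Q3 k t ht, ← Equiv.sum_comp (Equiv.addRight x) fun l => e3 (t * Q3 l)]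
      refine sum_congr rfl fun l _ => ?_
      rw [← e3_add]
      congr 1
      show t * Q3 l + t * B3 l x = t * Q3 (l + x)
      rw [Q3_add, h.sing x hx]
      ring
    rw [sum_congr rfl h2, sum_const, nsmul_eq_mul, h.card]
    push_cast
    rfl
  have h3 : ∑ l, ∑ x ∈ X, e3 (t * Q3 l) * e3 (t * B3 l x) =
      3 ^ j * ∑ l ∈ perp3 X, e3 (t * Q3 l) := by
    simp only [← mul_sum, h.sum_char t ht]
    have e : ∑ l ∈ perp3 X, (3 : ℂ) ^ j * e3 (t * Q3 l) =
        ∑ l, if l ∈ perp3 X then (3 : ℂ) ^ j * e3 (t * Q3 l) else 0 := by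
      rw [← sum_filter]
      congr 1
      ext l
      simp
    rw [mul_sum, e]
    refine sum_congr rfl fun l _ => ?_
    split_ifs <;> ring
  have h4 : (3 : ℂ) ^ j ≠ 0 := pow_ne_zero _ (by norm_num)
  exact mul_left_cancel₀ h4 (h3.symm.trans h1)

open Classical in
/-- The singular vectors orthogonal to `X` and outside `X`. -/
noncomputable def nw3 (X : Finset (Lab3 k)) : Finset (Lab3 k) :=
  (perp3 X).filter fun l => Q3 l = 0 ∧ l ∉ X

theorem sum_t (x : ZMod 3) : ∑ t : ZMod 3, e3 (t * x) = if x = 0 then 3 else 0 := by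
  split_ifs with h
  · subst h
    simp [e3_zero, ZMod.card]
  · exact sum_e3_eq_zero (fun t : ZMod 3 => t * x) 1 x h fun t => by ring

theorem Iso3.card_nw {j : ℕ} {X : Finset (Lab3 k)} (h : Iso3 j X) :
    3 ^ j * (3 * ((nw3 X).card + 3 ^ j)) = 9 ^ k + 2 * (3 ^ j * 3 ^ k) := by
  classical
  have h1 : ((perp3 X).filter fun l => Q3 l = 0).card = (nw3 X).card + 3 ^ j := by
    have hX : X ⊆ (perp3 X).filter fun l => Q3 l = 0 := by
      intro x hx
      rw [mem_filter, mem_perp3]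
      exact ⟨fun y hy => h.B hx hy, h.sing x hx⟩
    have e : nw3 X = ((perp3 X).filter fun l => Q3 l = 0) \ X := by
      ext l
      rw [nw3, mem_filter, mem_sdiff, mem_filter]
      tauto
    rw [e, card_sdiff_of_subset hX, h.card]
    have := card_le_card hX
    rw [h.card] at this
    omega
  have h2 : ∑ l ∈ perp3 X, ∑ t : ZMod 3, e3 (t * Q3 l) =
      3 * (((perp3 X).filter fun l => Q3 l = 0).card : ℂ) := by
    simp only [sum_t]
    rw [← sum_filter, sum_const, nsmul_eq_mul, mul_comm]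
  have h3 : ∑ l ∈ perp3 X, ∑ t : ZMod 3, e3 (t * Q3 l) = (perp3 X).card + 2 * 3 ^ k := by
    rw [sum_comm]
    have e : (univ : Finset (ZMod 3)) = {0, 1, 2} := by decide
    rw [e, sum_insert (by decide), sum_insert (by decide), sum_singleton,
      h.sum_perp 1 (by decide), h.sum_perp 2 (by decide)]
    simp only [zero_mul, e3_zero, sum_const, nsmul_eq_mul, mul_one]
    ring
  rw [h2, h1] at h3
  have h4 := h.card_perp
  have h5 : (3 : ℂ) ^ j * (3 * ((nw3 X).card + 3 ^ j)) = 9 ^ k + 2 * (3 ^ j * 3 ^ k) := by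
    push_cast at h3
    linear_combination 3 ^ j * h3 + h4
  exact_mod_cast h5

/-- The span of `X` and `l`. -/
def sp3 (X : Finset (Lab3 k)) (l : Lab3 k) : Finset (Lab3 k) :=
  (X ×ˢ (univ : Finset (ZMod 3))).image fun p => p.1 + p.2 • l

theorem mem_sp3 {X : Finset (Lab3 k)} {l m : Lab3 k} :
    m ∈ sp3 X l ↔ ∃ x ∈ X, ∃ t : ZMod 3, x + t • l = m := by
  rw [sp3, mem_image]
  constructor
  · rintro ⟨p, hp, rfl⟩
    exact ⟨p.1, (mem_product.1 hp).1, p.2, rfl⟩
  · rintro ⟨x, hx, t, rfl⟩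
    exact ⟨(x, t), mem_product.2 ⟨hx, mem_univ _⟩, rfl⟩

theorem Iso3.span {j : ℕ} {X : Finset (Lab3 k)} (h : Iso3 j X) {l : Lab3 k} (hl : l ∈ nw3 X) :
    Iso3 (j + 1) (sp3 X l) := by
  classical
  rw [nw3, mem_filter, mem_perp3] at hl
  obtain ⟨hl1, hl2, hl3⟩ := hl
  refine ⟨?_, ?_, ?_, ?_, ?_⟩
  · exact mem_sp3.2 ⟨0, h.zero, 0, by rw [zero_smul, add_zero]⟩
  · intro x hx y hy
    obtain ⟨a, ha, s, rfl⟩ := mem_sp3.1 hx
    obtain ⟨b, hb, t, rfl⟩ := mem_sp3.1 hy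
    exact mem_sp3.2 ⟨a + b, h.add a ha b hb, s + t, by rw [add_smul, add_add_add_comm]⟩
  · intro r x hx
    obtain ⟨a, ha, s, rfl⟩ := mem_sp3.1 hx
    refine mem_sp3.2 ⟨r • a, h.smul r a ha, r * s, ?_⟩
    rw [smul_add, smul_smul]
  · intro x hx
    obtain ⟨a, ha, s, rfl⟩ := mem_sp3.1 hx
    rw [Q3_add, Q3_smul, hl2, h.sing a ha, B3_comm, B3_smul, hl1 a ha]
    ring
  · rw [sp3, card_image_of_injOn, card_product, h.card, card_univ, ZMod.card, pow_succ]
    rintro ⟨a, s⟩ hp ⟨b, t⟩ hq hpq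
    simp only [coe_product, Set.mem_prod, mem_coe] at hp hq
    simp only at hpq
    have h2 : (s - t) • l = b - a := by
      rw [sub_smul, sub_eq_sub_iff_add_eq_add, add_comm, hpq, add_comm]
    have hst : s - t = 0 := by
      by_contra hne
      apply hl3
      have h3 := h.smul (s - t)⁻¹ _ (h.add b hq.1 _ (h.neg_mem hp.1))
      rw [← sub_eq_add_neg, ← h2, smul_smul, inv_mul_cancel₀ hne, one_smul] at h3
      exact h3
    have hs : s = t := sub_eq_zero.1 hst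
    rw [hst, zero_smul] at h2
    have hab : a = b := (sub_eq_zero.1 h2.symm).symm
    rw [hs, hab]

/-- The limit of the `k`-th moment. -/
def Nk3 (k : ℕ) : ℕ := ∏ i ∈ range k, (1 + 3 ^ i)

theorem Nk3_succ (k : ℕ) : Nk3 (k + 1) = Nk3 k * (1 + 3 ^ k) := by
  rw [Nk3, prod_range_succ, Nk3]

open Classical in
/-- The number of maximal totally singular subspaces containing `X`. -/
noncomputable def NX3 (X : Finset (Lab3 k)) : ℕ := ((Lgs3 k).filter fun W => X ⊆ W).card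

theorem NX3_eq (d : ℕ) : ∀ j : ℕ, j + d = k → ∀ X : Finset (Lab3 k), Iso3 j X →
    NX3 X = Nk3 d := by
  classical
  induction d with
  | zero =>
    intro j hj X hX
    rw [add_zero] at hj
    subst hj
    have : (Lgs3 j).filter (fun W => X ⊆ W) = {X} := by
      ext W
      rw [mem_filter, mem_singleton]
      constructor
      · rintro ⟨hW, hXW⟩
        refine (eq_of_subset_of_card_le hXW ?_).symm
        rw [hX.card, (Iso3.of_Lgs hW).card]
      · rintro rfl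
        exact ⟨hX.to_Lgs, Subset.refl _⟩
    rw [NX3, this, card_singleton]
    simp [Nk3]
  | succ d ih =>
    intro j hj X hX
    have h1 : ∑ W ∈ (Lgs3 k).filter (fun W => X ⊆ W), ∑ l ∈ W \ X, 1 =
        ∑ l ∈ nw3 X, ∑ W ∈ (Lgs3 k).filter (fun W => sp3 X l ⊆ W), 1 := by
      refine sum_comm' ?_
      intro W l
      rw [mem_filter, mem_filter, mem_sdiff]
      constructor
      · rintro ⟨⟨hW, hXW⟩, hlW, hlX⟩
        have hI := Iso3.of_Lgs hW
        refine ⟨⟨hW, ?_⟩, ?_⟩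
        · intro m hm
          obtain ⟨x, hx, t, rfl⟩ := mem_sp3.1 hm
          exact hI.add _ (hXW hx) _ (hI.smul t l hlW)
        · rw [nw3, mem_filter, mem_perp3]
          exact ⟨fun x hx => hI.B hlW (hXW hx), hI.sing l hlW, hlX⟩
      · rintro ⟨⟨hW, hsW⟩, hl⟩
        refine ⟨⟨hW, ?_⟩, ?_, ?_⟩
        · intro x hx
          exact hsW (mem_sp3.2 ⟨x, hx, 0, by rw [zero_smul, add_zero]⟩)
        · exact hsW (mem_sp3.2 ⟨0, hX.zero, 1, by rw [one_smul, zero_add]⟩)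
        · rw [nw3, mem_filter] at hl
          exact hl.2.2
    have h2 : ∀ W ∈ (Lgs3 k).filter (fun W => X ⊆ W), ∑ l ∈ W \ X, 1 = 3 ^ k - 3 ^ j := by
      intro W hW
      rw [mem_filter] at hW
      rw [sum_const, smul_eq_mul, mul_one, card_sdiff_of_subset hW.2, hX.card,
        (Iso3.of_Lgs hW.1).card]
    have h3 : ∀ l ∈ nw3 X, ∑ W ∈ (Lgs3 k).filter (fun W => sp3 X l ⊆ W), 1 = Nk3 d := by
      intro l hl
      rw [sum_const, smul_eq_mul, mul_one]
      exact ih (j + 1) (by omega) (sp3 X l) (hX.span hl)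
    rw [sum_congr rfl h2, sum_congr rfl h3, sum_const, sum_const, smul_eq_mul, smul_eq_mul] at h1
    have h4 := hX.card_nw
    have h5 : NX3 X * (3 ^ k - 3 ^ j) = (nw3 X).card * Nk3 d := h1
    have hle : (3 : ℕ) ^ j ≤ 3 ^ k := Nat.pow_le_pow_right (by norm_num) (by omega)
    have h6 : (NX3 X : ℝ) * (3 ^ k - 3 ^ j) = (nw3 X).card * Nk3 d := by
      have := congrArg (fun n : ℕ => (n : ℝ)) h5
      push_cast [Nat.cast_sub hle] at this
      exact this
    have h4' : (3 : ℝ) ^ j * (3 * ((nw3 X).card + 3 ^ j)) = 9 ^ k + 2 * (3 ^ j * 3 ^ k) := by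
      exact_mod_cast h4
    have h16 : (9 : ℝ) ^ k = 3 ^ k * 3 ^ k := by rw [← mul_pow]; norm_num
    have hkr : (3 : ℝ) ^ k = 3 ^ j * 3 ^ (d + 1) := by rw [← pow_add, hj]
    have hb : (0 : ℝ) < 3 ^ j := by positivity
    have ha : (1 : ℝ) < 3 ^ (d + 1) := one_lt_pow₀ (by norm_num) (by omega)
    rw [h16, hkr] at h4'
    rw [hkr] at h6
    have h2d : (3 : ℝ) ^ (d + 1) = 3 * 3 ^ d := pow_succ' _ _
    set a : ℝ := 3 ^ (d + 1) with hadef
    set b : ℝ := 3 ^ j with hbdef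
    have h7 : (3 : ℝ) * (nw3 X).card = b * ((a - 1) * (a + 3)) := by
      have : b * (3 * (nw3 X).card) = b * (b * ((a - 1) * (a + 3))) := by
        linear_combination h4'
      exact mul_left_cancel₀ hb.ne' this
    have h8 : b * (a - 1) * (3 * (NX3 X : ℝ)) = b * (a - 1) * ((a + 3) * Nk3 d) := by
      linear_combination 3 * h6 + Nk3 d * h7
    have h9 : (3 : ℝ) * NX3 X = (a + 3) * Nk3 d := by
      have hne : b * (a - 1) ≠ 0 := by
        have : 0 < b * (a - 1) := mul_pos hb (by linarith)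
        exact this.ne'
      exact mul_left_cancel₀ hne h8
    rw [h2d] at h9
    have h10 : (NX3 X : ℝ) = (Nk3 (d + 1) : ℕ) := by
      rw [Nk3_succ]
      push_cast
      linarith
    exact_mod_cast h10

/-- The number of maximal totally singular subspaces. -/
theorem card_Lgs3 (k : ℕ) : (Lgs3 k).card = Nk3 k := by
  classical
  have h0 : Iso3 0 ({0} : Finset (Lab3 k)) := by
    refine ⟨mem_singleton_self _, ?_, ?_, ?_, by simp⟩
    · intro x hx y hy
      rw [mem_singleton] at hx hy ⊢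
      rw [hx, hy, add_zero]
    · intro t x hx
      rw [mem_singleton] at hx ⊢
      rw [hx, smul_zero]
    · intro x hx
      rw [mem_singleton] at hx
      rw [hx, Q3_zero]
  rw [← NX3_eq k 0 (by omega) {0} h0, NX3]
  congr 1
  ext W
  rw [mem_filter, singleton_subset_iff]
  constructor
  · intro h
    exact ⟨h, (Iso3.of_Lgs h).zero⟩
  · intro h
    exact h.1

end Pool.Agent.Lib.MP_1a91b9_ntK.Da
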