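import Pool.Agent.Lib.MP_1a91b9_ntK.D.Spl3

/-!
# MP_1a91b9_nt (cubic twists), part D: the twisted moments, from the engine
-/

set_option autoImplicit false

namespace Pool.Agent.Lib.MP_1a91b9_ntK.Da

open Finset Pool.Agent.Lib.MP_1a91b9_ntH

noncomputable section

variable {ι : Type} [DecidableEq ι] [PS ι]

open Classical in
/-- The squarefree integers prime to the primes in `T`. -/
def SxT (T : Finset ι) (X : ℕ) : Finset (Finset ι) := (Sx ι X).filter fun S => Disjoint S T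

theorem mem_SxT {T : Finset ι} {X : ℕ} {S : Finset ι} : S ∈ SxT T X ↔ S ∈ Sx ι X ∧ Disjoint S T := by
  classical
  rw [SxT, mem_filter]

/-- The conclusion of the engine, for one label system. -/
def Eng3 (D : Dat3 ι) {L : Type} [Fintype L] [DecidableEq L] (Λ : LS3 L ι) : Prop :=
  ∀ ε : ℝ, 0 < ε → ∃ X₀ : ℕ, ∀ X : ℕ, X₀ ≤ X →
    ‖∑ S ∈ SxT Λ.B X, ((Λ.m : ℂ)⁻¹) ^ S.card * ∑ f : S → L, e3 (D.eS Λ S f) -
      (Λ.Ms.card : ℂ) * ((SxT Λ.B X).card : ℂ)‖ ≤ ε * X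

/-- The twisted `k`-th moment. -/
def Mo3 (D : Dat3 ι) (τ : ZMod 3) (T : Finset ι) (k : ℕ) (c : ZMod 3) (X : ℕ) : ℂ :=
  ∑ S ∈ SxT T X, (D.kc (eT T) τ (S ∪ T) : ℂ) ^ k * e3 (c * ∑ q ∈ S, D.a q)

theorem Mo3_eq (D : Dat3 ι) (hs : D.Sym) (τ : ZMod 3) (T : Finset ι) (k : ℕ) (c : ZMod 3)
    (X : ℕ) : Mo3 D τ T k c X * (3 ^ k) ^ T.card =
      ∑ t : T → Lab3 k, e3 (EE D (eT T) τ T t) * ∑ S ∈ SxT T X,
        ((((LSt k τ c T (tE T t)).m : ℂ)⁻¹) ^ S.card *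
          ∑ f : S → Lab3 k, e3 (D.eS (LSt k τ c T (tE T t)) S f)) := by
  rw [Mo3, sum_mul]
  have h1 : ∀ S ∈ SxT T X, (D.kc (eT T) τ (S ∪ T) : ℂ) ^ k * e3 (c * ∑ q ∈ S, D.a q) *
      (3 ^ k) ^ T.card = ∑ t : T → Lab3 k, e3 (EE D (eT T) τ T t) *
        ((((3 : ℂ) ^ k)⁻¹) ^ S.card * ∑ f : S → Lab3 k, e3 (D.eS (LSt k τ c T (tE T t)) S f)) :=
    fun S hS => kc_expand D hs τ c (mem_SxT.1 hS).2
  rw [sum_congr rfl h1, sum_comm]
  refine sum_congr rfl fun t _ => ?_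
  rw [mul_sum]
  refine sum_congr rfl fun S _ => ?_
  have h2 : (((LSt k τ c T (tE T t)).m : ℕ) : ℂ) = 3 ^ k := by
    show (((3 ^ k : ℕ)) : ℂ) = 3 ^ k
    push_cast
    rfl
  rw [h2]

/-- All the twisted moments have the right size. -/
def MoOK3 (D : Dat3 ι) (τ : ZMod 3) (T : Finset ι) : Prop :=
  ∀ (k : ℕ) (c : ZMod 3) (ε : ℝ), 0 < ε → ∃ X₀ : ℕ, ∀ X : ℕ, X₀ ≤ X →
    ‖Mo3 D τ T k c X - (if c = 0 then (Mk3 k τ : ℂ) else 0) * ((SxT T X).card : ℂ)‖ ≤ ε * X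

theorem Mo3_pos (D : Dat3 ι) (hs : D.Sym) (τ : ZMod 3) (T : Finset ι) (k : ℕ) (c : ZMod 3)
    (hE : ∀ t : ι → Lab3 k, Eng3 D (LSt k τ c T t)) (ε : ℝ) (hε : 0 < ε) :
    ∃ X₀ : ℕ, ∀ X : ℕ, X₀ ≤ X →
    ‖Mo3 D τ T k c X - (if c = 0 then (Mk3 k τ : ℂ) else 0) * ((SxT T X).card : ℂ)‖ ≤ ε * X := by
  have hN : (0 : ℝ) < Fintype.card (T → Lab3 k) := by
    exact_mod_cast Fintype.card_pos
  choose X0 h0 using fun t : T → Lab3 k => hE (tE T t) (ε / Fintype.card (T → Lab3 k))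
    (by positivity)
  refine ⟨∑ t, X0 t, fun X hX => ?_⟩
  have hXt : ∀ t, X0 t ≤ X := fun t =>
    (single_le_sum (fun _ _ => Nat.zero_le _) (mem_univ t)).trans hX
  have hcard : (if c = 0 then (Mk3 k τ : ℂ) else 0) = ((Gd k τ c).card : ℂ) := by
    rw [card_Gd]
    split_ifs
    · rfl
    · rw [Nat.cast_zero]
  have e1 : (Mo3 D τ T k c X - (if c = 0 then (Mk3 k τ : ℂ) else 0) * ((SxT T X).card : ℂ)) *
      (3 ^ k) ^ T.card = ∑ t : T → Lab3 k, e3 (EE D (eT T) τ T t) *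
        (∑ S ∈ SxT T X, ((((LSt k τ c T (tE T t)).m : ℂ)⁻¹) ^ S.card *
          ∑ f : S → Lab3 k, e3 (D.eS (LSt k τ c T (tE T t)) S f)) -
        ((LSt k τ c T (tE T t)).Ms.card : ℂ) * ((SxT T X).card : ℂ)) := by
    rw [sub_mul, Mo3_eq D hs, hcard]
    have h2 : ((Gd k τ c).card : ℂ) * ((SxT T X).card : ℂ) * (3 ^ k) ^ T.card =
        (∑ t : T → Lab3 k, e3 (EE D (eT T) τ T t) * ((LSt k τ c T (tE T t)).Ms.card : ℂ)) *
          ((SxT T X).card : ℂ) := by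
      rw [sum_Ms D hs]
      ring
    rw [h2, sum_mul, ← sum_sub_distrib]
    exact sum_congr rfl fun t _ => by ring
  have h3 : (1 : ℝ) ≤ ‖((3 : ℂ) ^ k) ^ T.card‖ := by
    rw [norm_pow, norm_pow]
    exact one_le_pow₀ (one_le_pow₀ (by norm_num))
  calc ‖Mo3 D τ T k c X - (if c = 0 then (Mk3 k τ : ℂ) else 0) * ((SxT T X).card : ℂ)‖
      ≤ ‖Mo3 D τ T k c X - (if c = 0 then (Mk3 k τ : ℂ) else 0) * ((SxT T X).card : ℂ)‖ *
        ‖((3 : ℂ) ^ k) ^ T.card‖ := le_mul_of_one_le_right (norm_nonneg _) h3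
    _ = ‖∑ t : T → Lab3 k, e3 (EE D (eT T) τ T t) *
        (∑ S ∈ SxT T X, ((((LSt k τ c T (tE T t)).m : ℂ)⁻¹) ^ S.card *
          ∑ f : S → Lab3 k, e3 (D.eS (LSt k τ c T (tE T t)) S f)) -
        ((LSt k τ c T (tE T t)).Ms.card : ℂ) * ((SxT T X).card : ℂ))‖ := by
      rw [← norm_mul, e1]
    _ ≤ ∑ t : T → Lab3 k, ε / Fintype.card (T → Lab3 k) * X := by
      refine (norm_sum_le _ _).trans (sum_le_sum fun t _ => ?_)
      rw [norm_mul, norm_e3, one_mul]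
      exact h0 t X (hXt t)
    _ = ε * X := by
      rw [sum_const, card_univ, nsmul_eq_mul]
      field_simp

/-- The zeroth moments are the mean values of the characters. -/
theorem Mo3_zero {D : Dat3 ι} (h3 : D.H3) (τ : ZMod 3) (T : Finset ι) (c : ZMod 3) (ε : ℝ)
    (hε : 0 < ε) : ∃ X₀ : ℕ, ∀ X : ℕ, X₀ ≤ X →
    ‖Mo3 D τ T 0 c X - (if c = 0 then (Mk3 0 τ : ℂ) else 0) * ((SxT T X).card : ℂ)‖ ≤ ε * X := by
  by_cases hc : c = 0
  · refine ⟨0, fun X _ => ?_⟩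
    have hM : Mk3 0 τ = 1 := by
      rw [Mk3, Nk3, prod_range_zero, pow_zero, mul_one, ite_self]
    rw [if_pos hc, hc, hM]
    simp only [Mo3, pow_zero, zero_mul, e3_zero, mul_one, sum_const, nsmul_eq_mul,
      Nat.cast_one, one_mul, sub_self, norm_zero]
    positivity
  · obtain ⟨X1, h1⟩ := h3 T ∅ (fun _ => 0) c (empty_subset _) (fun p hp => absurd hp
      (notMem_empty p)) (Or.inr hc) ε hε
    refine ⟨X1, fun X hX => ?_⟩
    rw [if_neg hc, zero_mul, sub_zero]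
    have h2 : Mo3 D τ T 0 c X = ∑ S ∈ SxT T X, ∏ q ∈ S, e3 (D.ex ∅ (fun _ => 0) c q) := by
      rw [Mo3]
      refine sum_congr rfl fun S _ => ?_
      rw [pow_zero, one_mul, mul_sum, e3_sum]
      exact prod_congr rfl fun q _ => by rw [Dat3.ex, sum_empty, add_zero]
    rw [h2]
    exact h1 X hX

theorem MoOK3_of {D : Dat3 ι} (hs : D.Sym) (h3 : D.H3) (τ : ZMod 3) (T : Finset ι)
    (hE : ∀ (k : ℕ) (c : ZMod 3) (t : ι → Lab3 k), 1 ≤ k → Eng3 D (LSt k τ c T t)) :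
    MoOK3 D τ T := by
  intro k c ε hε
  rcases Nat.eq_zero_or_pos k with rfl | hk
  · exact Mo3_zero h3 τ T c ε hε
  · exact Mo3_pos D hs τ T k c (fun t => hE k c t hk) ε hε

end

end Pool.Agent.Lib.MP_1a91b9_ntK.Da
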