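import Pool.Agent.Lib.MP_1a91b9_ntK.D.Kc3

/-!
# MP_1a91b9_nt (cubic twists), part D: separation of the fixed primes
-/

set_option autoImplicit false

namespace Pool.Agent.Lib.MP_1a91b9_ntK.Da

open Finset

noncomputable section

variable {k : ℕ} {ι : Type} [DecidableEq ι]

/-- The exponent of a labelling given by a function on all primes. -/
def EF (D : Dat3 ι) (e : ι → ZMod 3) (τ : ZMod 3) (R : Finset ι) (F : ι → Lab3 k) : ZMod 3 :=
  ∑ j ∈ R, e j * (τ * D.a j) * Q3 (F j) +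
    ∑ i ∈ R, ∑ j ∈ R, e i * e j * D.s i j * Phi3 (F i) (F j)

theorem EE_eq_EF (D : Dat3 ι) (e : ι → ZMod 3) (τ : ZMod 3) (R : Finset ι) (f : R → Lab3 k)
    (F : ι → Lab3 k) (h : ∀ j : R, F j = f j) : EE D e τ R f = EF D e τ R F := by
  rw [EE, EF]
  congr 1
  · rw [← sum_coe_sort R fun j => e j * (τ * D.a j) * Q3 (F j)]
    exact sum_congr rfl fun j _ => by rw [h j]
  · rw [← sum_coe_sort R fun i => ∑ j ∈ R, e i * e j * D.s i j * Phi3 (F i) (F j)]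
    refine sum_congr rfl fun i _ => ?_
    rw [← sum_coe_sort R fun j => e i * e j * D.s i j * Phi3 (F i) (F j)]
    exact sum_congr rfl fun j _ => by rw [h i, h j]

theorem eS_eq (D : Dat3 ι) (τ c : ZMod 3) (S T : Finset ι) (t F : ι → Lab3 k) (f : S → Lab3 k)
    (h : ∀ j : S, F j = f j) : D.eS (LSt k τ c T t) S f =
      ∑ j ∈ S, ((τ * Q3 (F j) + c) * D.a j + ∑ p ∈ T, -Q3 (F j - t p) * D.s j p) +
        ∑ i ∈ S, ∑ j ∈ S, Phi3 (F i) (F j) * D.s i j := by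
  rw [Dat3.eS]
  congr 1
  · rw [← sum_coe_sort S fun j => ((τ * Q3 (F j) + c) * D.a j +
      ∑ p ∈ T, -Q3 (F j - t p) * D.s j p)]
    exact sum_congr rfl fun j _ => by rw [h j]; rfl
  · rw [← sum_coe_sort S fun i => ∑ j ∈ S, Phi3 (F i) (F j) * D.s i j]
    refine sum_congr rfl fun i _ => ?_
    rw [← sum_coe_sort S fun j => Phi3 (F i) (F j) * D.s i j]
    exact sum_congr rfl fun j _ => by rw [h i, h j]; rfl

theorem EF_union (D : Dat3 ι) (hs : D.Sym) (τ c : ZMod 3) {S T : Finset ι} (hST : Disjoint S T)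
    (F : ι → Lab3 k) : EF D (eT T) τ (S ∪ T) F + c * ∑ q ∈ S, D.a q =
      (∑ j ∈ S, ((τ * Q3 (F j) + c) * D.a j + ∑ p ∈ T, -Q3 (F j - F p) * D.s j p) +
        ∑ i ∈ S, ∑ j ∈ S, Phi3 (F i) (F j) * D.s i j) + EF D (eT T) τ T F := by
  have hS : ∀ j ∈ S, eT T j = 1 := fun j hj => if_neg (disjoint_left.1 hST hj)
  have hT : ∀ p ∈ T, eT T p = -1 := fun p hp => if_pos hp
  rw [EF, EF, sum_union hST, sum_union hST]
  have h1 : ∑ j ∈ S, eT T j * (τ * D.a j) * Q3 (F j) = ∑ j ∈ S, τ * Q3 (F j) * D.a j :=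
    sum_congr rfl fun j hj => by rw [hS j hj]; ring
  have h2 : ∀ i ∈ S, ∑ j ∈ S ∪ T, eT T i * eT T j * D.s i j * Phi3 (F i) (F j) =
      ∑ j ∈ S, Phi3 (F i) (F j) * D.s i j - ∑ p ∈ T, Phi3 (F i) (F p) * D.s i p := by
    intro i hi
    rw [sum_union hST, sub_eq_add_neg, ← sum_neg_distrib]
    congr 1
    · exact sum_congr rfl fun j hj => by rw [hS i hi, hS j hj]; ring
    · exact sum_congr rfl fun j hj => by rw [hS i hi, hT j hj]; ring
  have h3 : ∀ p ∈ T, ∑ j ∈ S ∪ T, eT T p * eT T j * D.s p j * Phi3 (F p) (F j) =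
      -∑ j ∈ S, Phi3 (F p) (F j) * D.s j p +
        ∑ j ∈ T, eT T p * eT T j * D.s p j * Phi3 (F p) (F j) := by
    intro p hp
    rw [sum_union hST, ← sum_neg_distrib]
    congr 1
    refine sum_congr rfl fun j hj => ?_
    rw [hS j hj, hT p hp, hs p j fun h => disjoint_left.1 hST hj (h ▸ hp)]
    ring
  rw [sum_congr rfl h2, sum_congr rfl h3, h1, sum_sub_distrib, sum_add_distrib, sum_neg_distrib]
  have h4 : ∑ p ∈ T, ∑ j ∈ S, Phi3 (F p) (F j) * D.s j p =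
      ∑ j ∈ S, ∑ p ∈ T, Phi3 (F p) (F j) * D.s j p := sum_comm
  have h5 : ∑ j ∈ S, ((τ * Q3 (F j) + c) * D.a j + ∑ p ∈ T, -Q3 (F j - F p) * D.s j p) =
      ∑ j ∈ S, τ * Q3 (F j) * D.a j + c * ∑ j ∈ S, D.a j -
        ∑ j ∈ S, ∑ p ∈ T, Phi3 (F j) (F p) * D.s j p -
        ∑ j ∈ S, ∑ p ∈ T, Phi3 (F p) (F j) * D.s j p := by
    rw [mul_sum, ← sum_add_distrib, ← sum_sub_distrib, ← sum_sub_distrib]
    refine sum_congr rfl fun j _ => ?_
    have h6 : ∑ p ∈ T, -Q3 (F j - F p) * D.s j p =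
        -(∑ p ∈ T, Phi3 (F j) (F p) * D.s j p) - ∑ p ∈ T, Phi3 (F p) (F j) * D.s j p := by
      rw [← sum_neg_distrib, ← sum_sub_distrib]
      refine sum_congr rfl fun p _ => ?_
      rw [← Phi3_add]
      ring
    rw [h6]
    ring
  rw [h4, h5]
  ring

/-- Labellings of a disjoint union. -/
def unEq (L : Type) {S T : Finset ι} (hST : Disjoint S T) :
    (↥(S ∪ T) → L) ≃ (S → L) × (T → L) where
  toFun g := (fun j => g ⟨j, mem_union_left _ j.2⟩, fun j => g ⟨j, mem_union_right _ j.2⟩)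
  invFun p j := if h : (j : ι) ∈ S then p.1 ⟨j, h⟩ else
    p.2 ⟨j, (mem_union.1 j.2).resolve_left h⟩
  left_inv g := by
    funext j
    simp only
    split_ifs <;> rfl
  right_inv p := by
    refine Prod.ext (funext fun j => ?_) (funext fun j => ?_)
    · simp only
      rw [dif_pos j.2]
    · simp only
      rw [dif_neg fun h => disjoint_left.1 hST h j.2]

theorem EE_union (D : Dat3 ι) (hs : D.Sym) (τ c : ZMod 3) {S T : Finset ι} (hST : Disjoint S T)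
    (f : S → Lab3 k) (t : T → Lab3 k) :
    EE D (eT T) τ (S ∪ T) ((unEq (Lab3 k) hST).symm (f, t)) + c * ∑ q ∈ S, D.a q =
      D.eS (LSt k τ c T (tE T t)) S f + EE D (eT T) τ T t := by
  set g := (unEq (Lab3 k) hST).symm (f, t) with hg
  have hgS : ∀ j : S, tE (S ∪ T) g j = f j := fun j => by
    have h1 : (j : ι) ∈ S ∪ T := mem_union_left _ j.2
    rw [tE, dif_pos h1]
    show (if h : (j : ι) ∈ S then f ⟨j, h⟩ else _) = _
    rw [dif_pos j.2]
  have hgT : ∀ p : T, tE (S ∪ T) g p = t p := fun p => by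
    have h1 : (p : ι) ∈ S ∪ T := mem_union_right _ p.2
    rw [tE, dif_pos h1]
    show (if h : (p : ι) ∈ S then f ⟨p, h⟩ else _) = _
    rw [dif_neg fun h => disjoint_left.1 hST h p.2]
  rw [EE_eq_EF D (eT T) τ (S ∪ T) g (tE (S ∪ T) g) fun j => tE_coe _ _ _,
    EF_union D hs τ c hST, eS_eq D τ c S T (tE T t) (tE (S ∪ T) g) f hgS,
    EE_eq_EF D (eT T) τ T t (tE (S ∪ T) g) hgT]
  refine congrArg (· + EF D (eT T) τ T (tE (S ∪ T) g)) (congrArg (· + ∑ i ∈ S, ∑ j ∈ S,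
    Phi3 (tE (S ∪ T) g i) (tE (S ∪ T) g j) * D.s i j) (sum_congr rfl fun j _ =>
    congrArg (fun x => (τ * Q3 (tE (S ∪ T) g j) + c) * D.a j + x) (sum_congr rfl fun p hp => ?_)))
  rw [hgT ⟨p, hp⟩, ← tE_coe T t ⟨p, hp⟩]

/-- The expansion of the twisted `k`-th power of the kernel size, with the fixed primes separated. -/
theorem kc_expand (D : Dat3 ι) (hs : D.Sym) (τ c : ZMod 3) {S T : Finset ι} (hST : Disjoint S T) :
    (D.kc (eT T) τ (S ∪ T) : ℂ) ^ k * e3 (c * ∑ q ∈ S, D.a q) * (3 ^ k) ^ T.card =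
      ∑ t : T → Lab3 k, e3 (EE D (eT T) τ T t) *
        ((((3 : ℂ) ^ k)⁻¹) ^ S.card * ∑ f : S → Lab3 k, e3 (D.eS (LSt k τ c T (tE T t)) S f)) := by
  have h0 : ((3 : ℂ) ^ k) ^ S.card ≠ 0 := pow_ne_zero _ (pow_ne_zero _ (by norm_num))
  have h1 := kc_pow_mul3 (k := k) D (eT T) (eT_mul T) τ (S ∪ T)
  have h2 : (D.kc (eT T) τ (S ∪ T) : ℂ) ^ k * e3 (c * ∑ q ∈ S, D.a q) * (3 ^ k) ^ (S ∪ T).card =
      ∑ t : T → Lab3 k, e3 (EE D (eT T) τ T t) *
        ∑ f : S → Lab3 k, e3 (D.eS (LSt k τ c T (tE T t)) S f) := by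
    calc _ = (∑ f : ↥(S ∪ T) → Lab3 k, e3 (EE D (eT T) τ (S ∪ T) f)) *
          e3 (c * ∑ q ∈ S, D.a q) := by rw [← h1]; ring
      _ = ∑ p : (S → Lab3 k) × (T → Lab3 k),
          e3 (EE D (eT T) τ (S ∪ T) ((unEq (Lab3 k) hST).symm p)) * e3 (c * ∑ q ∈ S, D.a q) := by
        rw [sum_mul]
        exact (Equiv.sum_comp (unEq (Lab3 k) hST).symm
          fun f => e3 (EE D (eT T) τ (S ∪ T) f) * e3 (c * ∑ q ∈ S, D.a q)).symm
      _ = _ := by
        rw [Fintype.sum_prod_type_right]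
        refine sum_congr rfl fun t _ => ?_
        refine (sum_congr rfl fun f _ => ?_).trans (mul_sum _ _ _).symm
        rw [← e3_add, ← e3_add, EE_union D hs, add_comm]
  rw [card_union_of_disjoint hST, pow_add] at h2
  have h3 : ∑ t : T → Lab3 k, e3 (EE D (eT T) τ T t) *
        ((((3 : ℂ) ^ k)⁻¹) ^ S.card * ∑ f : S → Lab3 k, e3 (D.eS (LSt k τ c T (tE T t)) S f)) =
      (((3 : ℂ) ^ k)⁻¹) ^ S.card * ∑ t : T → Lab3 k, e3 (EE D (eT T) τ T t) *
        ∑ f : S → Lab3 k, e3 (D.eS (LSt k τ c T (tE T t)) S f) := by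
    rw [mul_sum]
    exact sum_congr rfl fun t _ => by ring
  rw [h3, ← h2, inv_pow]
  generalize ((3 : ℂ) ^ k) ^ S.card = x at h0
  generalize ((3 : ℂ) ^ k) ^ T.card = y
  generalize (D.kc (eT T) τ (S ∪ T) : ℂ) ^ k * e3 (c * ∑ q ∈ S, D.a q) = z
  field_simp

end

end Pool.Agent.Lib.MP_1a91b9_ntK.Da
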